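import Pool.Agent.Helper83.DV.Ch

/-!
# Project DV, block PL3: the Gaussian limit of neutral characters
-/

open MeasureTheory Filter Topology

namespace DV

open RP4 (V Om dom avg mu Loc Deloc mass)
open GF (Pl Cc Ne lap rf refl ell Dir energy2 Kc)
open GF.Lat (ld DirZ lref Xd win dr Rep XX ev itf LogBd cc_box Chg)

/-- `muP` of a function whose real and imaginary parts are local in the height differences -/
lemma muP_of_loc (hd : Deloc) {s : Finset V} {F : (V → ℤ) → ℂ}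
    (h1 : Loc s (fun h => (F h).re)) (h2 : Loc s (fun h => (F h).im)) :
    muP F = (mu (fun h => (F h).re) : ℂ) + (mu (fun h => (F h).im) : ℂ) * Complex.I := by
  have hne := RP4.dom_neBot
  have t1 := (Complex.continuous_ofReal.tendsto _).comp (RP4.mu_tendsto hd h1)
  have t2 := (Complex.continuous_ofReal.tendsto _).comp (RP4.mu_tendsto hd h2)
  have t := t1.add (t2.mul_const Complex.I)
  refine Tendsto.limUnder_eq (t.congr fun D => ?_)
  simp only [Function.comp_apply]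
  unfold avg avc
  push_cast
  rw [div_mul_eq_mul_div, ← add_div, Finset.sum_mul, ← Finset.sum_add_distrib]
  congr 1
  exact Finset.sum_congr rfl fun h _ => Complex.re_add_im (F h)

/-- the iterated filter projects to the filter of the mesh -/
lemma tendsto_of_itf {g : ℝ → ℝ} {l : ℝ}
    (h : Tendsto (fun p : ℝ × Finset V => g p.1) itf (𝓝 l)) : Tendsto g (𝓝[>] (0 : ℝ)) (𝓝 l) := by
  have hne := RP4.dom_neBot
  rw [Metric.tendsto_nhds] at h ⊢
  intro ε hε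
  have h1 := h ε hε
  rw [GF.Lat.itf_eventually] at h1
  filter_upwards [h1] with δ h2
  obtain ⟨D, hD⟩ := h2.exists
  exact hD

lemma mu_sin (hd : Deloc) {δ : ℝ} (hδ : 0 < δ) {F : Pl → ℝ} (hi : Integrable F) (h0 : ∫ z, F z = 0)
    {R : ℝ} (hR : 0 < R) (hs : ∀ z, F z ≠ 0 → |z.1| ≤ R ∧ |z.2| ≤ R) :
    mu (fun h => Real.sin (Xd δ F h)) = 0 := by
  have hl : Loc (win δ R) (fun h => Real.sin (Xd δ F h)) :=
    (GF.Lat.Xd_loc hδ hR.le hi h0 hs).comp Real.sin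
  have h1 := RP4.mu_neg hd hl
  have h2 : (fun h : V → ℤ => Real.sin (Xd δ F (-h))) = fun h => (-1) * Real.sin (Xd δ F h) := by
    funext h
    have h3 : Xd δ F (-h) = -Xd δ F h := by
      unfold GF.Lat.Xd
      rw [← tsum_neg]
      refine tsum_congr fun x => ?_
      simp only [Pi.neg_apply]
      push_cast
      ring
    rw [h3, Real.sin_neg]
    ring
  rw [h2, RP4.mu_smul hd hl] at h1
  linarith

/-- the Gaussian limit of the characters of a neutral test function, real part -/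
theorem mu_cos_tendsto (hd : Deloc) {F : Pl → ℝ} (hF : Ne F) :
    Tendsto (fun δ => mu (fun h => Real.cos (Xd δ F h))) (𝓝[>] (0 : ℝ))
      (𝓝 (Real.exp (-(Kc hd * energy2 F F / 2)))) := by
  have key : Tendsto (fun p : ℝ × Finset V => ev p (fun i => Real.cos (XX F i))) itf
      (𝓝 (Real.exp (-(Kc hd * energy2 F F / 2)))) := by
    rw [tendsto_iff_ultrafilter]
    intro U hU
    obtain ⟨χ, hχ⟩ := GF.rad_fun (GF.latFld hd U hU)
    have h := GF.all_gauss (GF.latFld hd U hU) χ hχ F hF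
    rw [GF.latFld_K] at h
    rw [← h]
    exact GF.latFld_L hd U hU (GF.latFld_ok_of_bdd hd U hU (B := 1) fun i => Real.abs_cos_le_one _)
  have h1 := GF.Lat.Rep.tendsto hd ((GF.Lat.rep_XX hF).comp Real.cos)
  have h2 := key.sub h1
  rw [sub_zero] at h2
  refine tendsto_of_itf (h2.congr fun p => ?_)
  ring

lemma Xd_sub_int {δ : ℝ} (hδ : 0 < δ) {f g : Pl → ℝ} (hf : Integrable f) (hg : Integrable g)
    {R : ℝ} (hR : 0 ≤ R) (h1 : ∀ z, f z ≠ 0 → |z.1| ≤ R ∧ |z.2| ≤ R)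
    (h2 : ∀ z, g z ≠ 0 → |z.1| ≤ R ∧ |z.2| ≤ R) (h : V → ℤ) :
    Xd δ (fun z => f z - g z) h = Xd δ f h - Xd δ g h := by
  have h3 : ∀ z, f z - g z ≠ 0 → |z.1| ≤ R ∧ |z.2| ≤ R := by
    intro z hz
    by_cases hfz : f z = 0
    · refine h2 z fun hc => hz ?_
      rw [hfz, hc, sub_zero]
    · exact h1 z hfz
  rw [GF.Lat.Xd_eq hδ hR h3 (Finset.Subset.refl _), GF.Lat.Xd_eq hδ hR h1 (Finset.Subset.refl _),
    GF.Lat.Xd_eq hδ hR h2 (Finset.Subset.refl _), ← Finset.sum_sub_distrib]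
  refine Finset.sum_congr rfl fun x _ => ?_
  have h4 : mass δ (fun z => f z - g z) x = mass δ f x - mass δ g x := by
    unfold RP4.mass
    exact integral_sub hf.integrableOn hg.integrableOn
  rw [h4]
  ring

private lemma Gm_log (K : ℝ) :
    Tendsto (fun δ : ℝ => K * (Real.log (1 / δ) * δ ^ 2)) (𝓝[>] (0 : ℝ)) (𝓝 0) := by
  have h1 : Tendsto (fun δ : ℝ => Real.log δ * δ ^ (2 : ℝ)) (𝓝[>] (0 : ℝ)) (𝓝 0) :=
    tendsto_log_mul_rpow_nhdsGT_zero two_pos
  have h2 := h1.const_mul (-K)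
  rw [mul_zero] at h2
  refine h2.congr fun δ => ?_
  rw [one_div, Real.log_inv, Real.rpow_two]
  ring

private lemma Gm_cos (a b ε : ℝ) (hε : 0 < ε) : Real.cos a ≤ Real.cos b + (ε + ε⁻¹ * (a - b) ^ 2) := by
  have h1 : |Real.cos a - Real.cos b| ≤ |a - b| := by
    have := Real.abs_cos_sub_cos_le a b
    exact this
  have h2 : |a - b| ≤ ε + ε⁻¹ * (a - b) ^ 2 := by
    have h3 : 0 ≤ ε⁻¹ * (|a - b| - ε) ^ 2 := by positivity
    have h4 : ε⁻¹ * (|a - b| - ε) ^ 2 = ε⁻¹ * (a - b) ^ 2 - 2 * |a - b| + ε := by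
      have : (|a - b| - ε) ^ 2 = (a - b) ^ 2 - 2 * |a - b| * ε + ε ^ 2 := by
        rw [sub_sq, sq_abs]
      rw [this]
      field_simp
    have h5 := abs_nonneg (a - b)
    linarith
  have := (abs_le.1 h1).2
  linarith

/-- the Gaussian limit for a neutral charge which depends on the mesh and is close to a test function -/
theorem muP_chr_tendsto (hd : Deloc) {F₀ : Pl → ℝ} (hF : Ne F₀) {R : ℝ} (hR : 0 < R)
    {F : ℝ → Pl → ℝ} (hC : Chg R F) (B : ℝ)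
    (hB : ∀ᶠ δ in 𝓝[>] (0 : ℝ), ∫ z, |F δ z - F₀ z| ≤ B * δ) :
    Tendsto (fun δ => muP (chr δ (F δ))) (𝓝[>] (0 : ℝ))
      (𝓝 (Real.exp (-(Kc hd * energy2 F₀ F₀ / 2)) : ℂ)) := by
  obtain ⟨R₀, hR₀, hs₀⟩ := cc_box hF.toCc
  set S := max R R₀ with hS
  have hSp : 0 < S := lt_max_of_lt_left hR
  have hs₀' : ∀ z, F₀ z ≠ 0 → |z.1| ≤ S ∧ |z.2| ≤ S := fun z hz =>
    ⟨(hs₀ z hz).1.trans (le_max_right _ _), (hs₀ z hz).2.trans (le_max_right _ _)⟩
  obtain ⟨C, hC0, hcr⟩ := GF.Lat.crude hd (GF.logBd hd) S hSp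
  have hpos : ∀ᶠ δ in 𝓝[>] (0 : ℝ), 0 < δ := self_mem_nhdsWithin
  have hlt : ∀ᶠ δ in 𝓝[>] (0 : ℝ), δ < 1 :=
    (eventually_lt_nhds (a := (0 : ℝ)) (b := 1) one_pos).filter_mono nhdsWithin_le_nhds
  -- the real parts
  have hre : Tendsto (fun δ => mu (fun h => Real.cos (Xd δ (F δ) h))) (𝓝[>] (0 : ℝ))
      (𝓝 (Real.exp (-(Kc hd * energy2 F₀ F₀ / 2)))) := by
    rw [Metric.tendsto_nhds]
    intro ε hε
    have h1 := (Metric.tendsto_nhds.1 (mu_cos_tendsto hd hF)) (ε / 3) (by positivity)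
    have h2 := (Metric.tendsto_nhds.1 (Gm_log ((ε / 3)⁻¹ * (C * B ^ 2)))) (ε / 3) (by positivity)
    filter_upwards [h1, h2, hcr, hC.int, hC.zero, hC.supp, hB, hpos, hlt] with δ h1 h2 h3 hi h0 hs h4 h5 h6
    have hs' : ∀ z, F δ z ≠ 0 → |z.1| ≤ S ∧ |z.2| ≤ S := fun z hz =>
      ⟨(hs z hz).1.trans (le_max_left _ _), (hs z hz).2.trans (le_max_left _ _)⟩
    have hdi : Integrable (fun z => F δ z - F₀ z) := hi.sub hF.toCc.integrable
    have hd0 : ∫ z, (F δ z - F₀ z) = 0 := by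
      rw [integral_sub hi hF.toCc.integrable, h0, hF.zero, sub_zero]
    have hds : ∀ z, F δ z - F₀ z ≠ 0 → |z.1| ≤ S ∧ |z.2| ≤ S := by
      intro z hz
      by_cases hfz : F δ z = 0
      · refine hs₀' z fun hc => hz ?_
        rw [hfz, hc, sub_zero]
      · exact hs' z hfz
    have hl1 : Loc (win δ S) (fun h => Xd δ (F δ) h) := GF.Lat.Xd_loc h5 hSp.le hi h0 hs'
    have hl2 : Loc (win δ S) (fun h => Xd δ F₀ h) :=
      GF.Lat.Xd_loc h5 hSp.le hF.toCc.integrable hF.zero hs₀'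
    have hl3 : Loc (win δ S) (fun h => Xd δ (fun z => F δ z - F₀ z) h) :=
      GF.Lat.Xd_loc h5 hSp.le hdi hd0 hds
    have hsub : ∀ h, Xd δ (fun z => F δ z - F₀ z) h = Xd δ (F δ) h - Xd δ F₀ h := fun h =>
      Xd_sub_int h5 hi hF.toCc.integrable hSp.le hs' hs₀' h
    have h7 := h3 _ hdi hd0 hds
    have h8 : mu (fun h => Xd δ (fun z => F δ z - F₀ z) h ^ 2) ≤ C * B ^ 2 * (Real.log (1 / δ) * δ ^ 2) := by
      refine h7.trans ?_
      have h9 : 0 ≤ Real.log (1 / δ) := Real.log_nonneg (by rw [le_div_iff₀ h5]; linarith)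
      have h10 : 0 ≤ ∫ z, |F δ z - F₀ z| := integral_nonneg fun z => abs_nonneg _
      have h11 : (∫ z, |F δ z - F₀ z|) ^ 2 ≤ (B * δ) ^ 2 := pow_le_pow_left₀ h10 h4 2
      calc C * Real.log (1 / δ) * (∫ z, |F δ z - F₀ z|) ^ 2 ≤ C * Real.log (1 / δ) * (B * δ) ^ 2 :=
            mul_le_mul_of_nonneg_left h11 (mul_nonneg hC0 h9)
        _ = C * B ^ 2 * (Real.log (1 / δ) * δ ^ 2) := by ring
    have hq : Loc (win δ S) (fun h => Xd δ (fun z => F δ z - F₀ z) h ^ 2) := hl3.comp (fun t => t ^ 2)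
    have hq' : Loc (win δ S) (fun h => ε / 3 + (ε / 3)⁻¹ * Xd δ (fun z => F δ z - F₀ z) h ^ 2) :=
      hq.comp (fun t => ε / 3 + (ε / 3)⁻¹ * t)
    have hmq : mu (fun h => ε / 3 + (ε / 3)⁻¹ * Xd δ (fun z => F δ z - F₀ z) h ^ 2) =
        ε / 3 + (ε / 3)⁻¹ * mu (fun h => Xd δ (fun z => F δ z - F₀ z) h ^ 2) := by
      rw [RP4.mu_add hd (RP4.Loc.const _ (ε / 3)) (hq.comp (fun t => (ε / 3)⁻¹ * t)), RP4.mu_const,
        RP4.mu_smul hd hq]
    have hA : mu (fun h => Real.cos (Xd δ (F δ) h)) ≤ mu (fun h => Real.cos (Xd δ F₀ h)) +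
        (ε / 3 + (ε / 3)⁻¹ * mu (fun h => Xd δ (fun z => F δ z - F₀ z) h ^ 2)) := by
      rw [← hmq, ← RP4.mu_add hd (hl2.comp Real.cos) hq']
      refine RP4.mu_mono hd (hl1.comp Real.cos) ((hl2.comp Real.cos).add hq') fun g _ => ?_
      rw [hsub]
      exact Gm_cos _ _ _ (by positivity)
    have hA' : mu (fun h => Real.cos (Xd δ F₀ h)) ≤ mu (fun h => Real.cos (Xd δ (F δ) h)) +
        (ε / 3 + (ε / 3)⁻¹ * mu (fun h => Xd δ (fun z => F δ z - F₀ z) h ^ 2)) := by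
      rw [← hmq, ← RP4.mu_add hd (hl1.comp Real.cos) hq']
      refine RP4.mu_mono hd (hl2.comp Real.cos) ((hl1.comp Real.cos).add hq') fun g _ => ?_
      rw [hsub, ← neg_sub (Xd δ F₀ g), neg_sq]
      exact Gm_cos _ _ _ (by positivity)
    rw [Real.dist_eq, sub_zero] at h2
    have h9 := (abs_lt.1 h2).2
    have h10 : (ε / 3)⁻¹ * mu (fun h => Xd δ (fun z => F δ z - F₀ z) h ^ 2) ≤
        (ε / 3)⁻¹ * (C * B ^ 2) * (Real.log (1 / δ) * δ ^ 2) := by
      rw [mul_assoc]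
      exact mul_le_mul_of_nonneg_left h8 (by positivity)
    rw [Real.dist_eq] at h1 ⊢
    have h11 := abs_lt.1 h1
    rw [abs_lt]
    constructor <;> linarith [h11.1, h11.2]
  -- the imaginary parts vanish
  have hre' : Tendsto (fun δ => ((mu (fun h => Real.cos (Xd δ (F δ) h)) : ℝ) : ℂ)) (𝓝[>] (0 : ℝ))
      (𝓝 (Real.exp (-(Kc hd * energy2 F₀ F₀ / 2)) : ℂ)) :=
    (Complex.continuous_ofReal.tendsto _).comp hre
  refine hre'.congr' ?_
  filter_upwards [hC.int, hC.zero, hC.supp, hpos] with δ hi h0 hs h5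
  have hl : Loc (win δ R) (fun h => Xd δ (F δ) h) := GF.Lat.Xd_loc h5 hR.le hi h0 hs
  have e1 : (fun h => (chr δ (F δ) h).re) = fun h => Real.cos (Xd δ (F δ) h) := by
    funext h
    unfold chr
    rw [Complex.exp_ofReal_mul_I_re]
  have e2 : (fun h => (chr δ (F δ) h).im) = fun h => Real.sin (Xd δ (F δ) h) := by
    funext h
    unfold chr
    rw [Complex.exp_ofReal_mul_I_im]
  rw [muP_of_loc hd (s := win δ R) (by rw [e1]; exact hl.comp Real.cos) (by rw [e2]; exact hl.comp Real.sin),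
    e1, e2, mu_sin hd h5 hi h0 hR hs]
  simp

end DV
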