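import Pool.Agent.Helper83.DV.Sh

/-!
# Project DV, block PL3: the shift theorem
-/

open MeasureTheory Filter Topology

namespace DV

open RP4 (V Om dom BdryPar Deloc mass)
open GF (Pl Cc ell lap Kc dir JJ bx)
open GF.Lat (Xd cc_box DirZ dr)
open PL (AB)

lemma LL_add (i : Fin 6) (z w : Pl) : LL i (z + w) = LL i z + LL i w := by
  unfold LL ell
  simp only [Prod.fst_add, Prod.snd_add]
  ring

/-- the regions beyond the first and the last line are not empty -/
lemma Rr_ne {p q : Fin 6 → ℝ} (h : (Qr p).Nonempty) : (Rr p q 0).Nonempty ∧ (Rr p q 5).Nonempty := by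
  obtain ⟨z, hz⟩ := h
  constructor
  · refine ⟨z + (|q 0| + |LL 0 z| + 1, 0), ?_, fun j hj => absurd hj (by simp)⟩
    rw [LL_add]
    have e : LL 0 (|q 0| + |LL 0 z| + 1, 0) = |q 0| + |LL 0 z| + 1 := by
      simp [LL, dd, ell, dr]
    rw [e]
    have h1 := le_abs_self (q 0)
    have h2 := neg_abs_le (LL 0 z)
    linarith
  · set t := |q 5| + |LL 5 z| + 1 with ht
    have ht0 : 0 ≤ t := by positivity
    refine ⟨z + (0, -t), ?_, fun j hj => ?_⟩
    · rw [LL_add]
      have e : LL 5 (0, -t) = t := by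
        simp [LL, dd, ell, dr]
      rw [e]
      have h1 := le_abs_self (q 5)
      have h2 := neg_abs_le (LL 5 z)
      linarith
    · rw [LL_add]
      have h3 : LL j (0, -t) ≤ 0 := by
        fin_cases j
        · simp [LL, dd, ell, dr]
        · simp [LL, dd, ell, dr, ht0]
        · simp [LL, dd, ell, dr, ht0]
        · simp [LL, dd, ell, dr, ht0]
        · simp [LL, dd, ell, dr]
        · exact absurd hj (by decide)
      have h4 := hz j
      linarith

/-- **The shift theorem** (block PL3). For an even pinned weight with bounded moments and the cut property for all six lines between the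
levels `s i - κ` and `s i + κ`, the means of the characters of `f + lap u` and `f` are related, `u` supported behind the lines. -/
theorem shift_main (hdl : Deloc) {l : Filter ℝ} (hl : l ≤ 𝓝[>] 0) {E : ℝ → (V → ℤ) → ℝ} (hW : WDat l E)
    {m₀ : ℝ} (hm : 0 < m₀) (hlow : ∀ᶠ δ in l, m₀ ≤ MR (E δ)) {s : Fin 6 → ℝ} {κ : ℝ} (hκ : 0 < κ)
    (hne : (Qr fun i => s i - κ).Nonempty)
    (hcut : ∀ p q : Fin 6 → ℝ, (∀ i, s i - κ < p i) → (∀ i, p i < q i) → (∀ i, q i < s i + κ) → CutP hdl l E p q)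
    {u f : Pl → ℝ} (hu : Cc u) (hus : tsupport u ⊆ Qr fun i => s i - κ) (hf : Cc f) :
    Tendsto (fun δ => qt E (fun δ h => Real.cos (Xd δ (fun w => f w + lap u w) h)) δ -
      Real.exp (Kc hdl / 2 * JJ f u) * qt E (fun δ h => Real.cos (Xd δ f h)) δ) l (𝓝 0) := by
  set c := Real.exp (Kc hdl / 2 * JJ f u) with hc
  have hc0 : 0 < c := Real.exp_pos _
  -- the bumps
  obtain ⟨n0, n5⟩ := Rr_ne (q := fun i => s i + κ) hne
  obtain ⟨k₀, hk₀, _, i₀, t₀⟩ := GF.exists_bump _ (Rr_open _ _ 0) n0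
  obtain ⟨k₅, hk₅, _, i₅, t₅⟩ := GF.exists_bump _ (Rr_open _ _ 5) n5
  -- the majorant
  obtain ⟨A, hA0, hA⟩ := hf.bdd
  obtain ⟨ψ, hψ, hψ1, _, W, _, hKW, hW1⟩ := GF.exists_cutoff (tsupport f) Set.univ hf.supp isOpen_univ (Set.subset_univ _)
  set F : Pl → ℝ := fun z => 6 * A * ψ z with hF
  have cF : Cc F := hψ.smul (6 * A)
  have hFf : ∀ z, 6 * |f z| ≤ F z := by
    intro z
    simp only [hF]
    by_cases hz : f z = 0
    · rw [hz, abs_zero, mul_zero]
      exact mul_nonneg (by positivity) (hψ1 z).1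
    · rw [hW1 z (hKW (subset_tsupport f hz)), mul_one]
      exact mul_le_mul_of_nonneg_left (hA z) (by norm_num)
  obtain ⟨CF, hCF⟩ := hW.mom F cF 1
  obtain ⟨C₀, hC₀⟩ := hW.mom k₀ hk₀ 1
  obtain ⟨C₅, hC₅⟩ := hW.mom k₅ hk₅ 1
  have hpos : ∀ᶠ δ in l, 0 < δ := hl self_mem_nhdsWithin
  rw [Metric.tendsto_nhds]
  intro ε hε
  set η : ℝ := ε / (8 * (1 + c)) with hη
  have hηp : 0 < η := by positivity
  have hη1 : (1 + c) * η = ε / 8 := by
    rw [hη]
    field_simp
  obtain ⟨N, hN⟩ := exists_nat_gt (8 * (1 + c) * |CF| / (η * ε))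
  have hN0 : (0 : ℝ) < N := lt_of_le_of_lt (by positivity) hN
  set T : ℝ := 8 * (1 + c) * (|C₀| + |C₅|) / ε + 1 with hT
  have hT1 : 1 ≤ T := by
    rw [hT]
    have : 0 ≤ 8 * (1 + c) * (|C₀| + |C₅|) / ε := by positivity
    linarith
  have hTp : 0 < T := by linarith
  obtain ⟨D⟩ := cut6 hf s hκ N
  -- the cut property for the `N` decompositions
  have hint : ∀ k, ∫ z, D.g k z * u z = ∫ z, f z * u z := by
    intro k
    refine integral_congr_ae (Eventually.of_forall fun z => ?_)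
    simp only
    by_cases hz : u z = 0
    · rw [hz, mul_zero, mul_zero]
    · rw [D.eqg k z (hus (subset_tsupport u hz))]
  have hcs : ∀ k, Real.exp (Kc hdl / 2 * (2 * (∫ z, D.g k z * u z) - dir u)) = c := by
    intro k
    rw [hint, hc]
    rfl
  have hcut' : ∀ k : Fin N, ∀ᶠ δ in l, ‖M (fun h => Yy c δ (D.g k) u h * ((∏ i, chr δ (D.fi k i) h) *
      ((pnd δ T k₀ h * pnd δ T k₅ h : ℝ) : ℂ)) * (E δ h : ℂ))‖ ≤ m₀ * (ε / 8) := by
    intro k
    have h1 := hcut (D.p k) (D.q k) (D.lt_p k) (D.p_lt_q k) (D.q_lt k) (D.g k) u k₀ k₅ (D.fi k) T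
      (D.cg k) hu (D.cf k) hk₀ hk₅ i₀ i₅ (D.sg k) (hus.trans (Qr_mono fun i => (D.lt_p k i).le)) (D.sf k)
      (t₀.trans (Rr_mono (fun i => (D.lt_p k i).le) (fun i => (D.q_lt k i).le) 0))
      (t₅.trans (Rr_mono (fun i => (D.lt_p k i).le) (fun i => (D.q_lt k i).le) 5))
    rw [hcs k] at h1
    exact (h1.eventually (gt_mem_nhds (show (0 : ℝ) < m₀ * (ε / 8) by positivity))).mono fun δ h => h.le
  have hall := eventually_all.2 hcut'
  filter_upwards [hpos, hW.pin, hW.pos, hlow, hall, hCF, hC₀, hC₅] with δ hδ g1 g2 g3 g4 g5 g6 g7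
  obtain ⟨S, hS⟩ := g1
  set m := MR (E δ) with hmm
  simp only [qt, mul_one] at g5 g6 g7
  rw [div_le_iff₀ g2] at g5 g6 g7
  have q1 := mom_pieces hdl hS (hW.nonneg δ) (hW.even δ) hδ D.cr cF fun z => (D.sumr z).trans (hFf z)
  have hCFm : ∑ k, MR (fun h => Xd δ (D.r k) h ^ 2 * E δ h) ≤ |CF| * m :=
    q1.trans (g5.trans (mul_le_mul_of_nonneg_right (le_abs_self _) g2.le))
  obtain ⟨k, hk⟩ : ∃ k, MR (fun h => Xd δ (D.r k) h ^ 2 * E δ h) ≤ |CF| * m / N := by
    by_contra hcon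
    push Not at hcon
    have hNe : (Finset.univ : Finset (Fin N)).Nonempty := by
      have : 0 < N := by exact_mod_cast hN0
      exact ⟨⟨0, this⟩, Finset.mem_univ _⟩
    have h2 := Finset.sum_lt_sum_of_nonempty hNe fun k _ => hcon k
    rw [Finset.sum_const, Finset.card_univ, Fintype.card_fin, nsmul_eq_mul, mul_div_cancel₀ _ hN0.ne'] at h2
    exact absurd h2 (not_lt.2 hCFm)
  have h3 := shift_step hdl hS (hW.nonneg δ) hδ hf hu (D.cg k) (D.cr k) hk₀ hk₅ (D.cf k) i₀ i₅ (D.dec k) hc0.le hηp hTp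
  rw [Real.dist_eq, sub_zero]
  have e1 : qt E (fun δ h => Real.cos (Xd δ (fun w => f w + lap u w) h)) δ -
      c * qt E (fun δ h => Real.cos (Xd δ f h)) δ =
      (MR (fun h => Real.cos (Xd δ (fun z => f z + lap u z) h) * E δ h) -
        c * MR (fun h => Real.cos (Xd δ f h) * E δ h)) / m := by
    simp only [qt]
    rw [sub_div, mul_div_assoc]
  rw [e1, abs_div, abs_of_pos g2, div_lt_iff₀ g2]
  refine lt_of_le_of_lt h3 ?_
  have b1 := g4 k
  have b2 : m₀ * (ε / 8) ≤ m * (ε / 8) := mul_le_mul_of_nonneg_right g3 (by positivity)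
  have b3 : (1 + c) * (η * m) = ε / 8 * m := by
    rw [← mul_assoc, hη1]
  have b4 : (1 + c) * (η⁻¹ * MR (fun h => Xd δ (D.r k) h ^ 2 * E δ h)) ≤ ε / 8 * m := by
    have b5 : (1 + c) * (η⁻¹ * MR (fun h => Xd δ (D.r k) h ^ 2 * E δ h)) ≤ (1 + c) * (η⁻¹ * (|CF| * m / N)) := by
      refine mul_le_mul_of_nonneg_left ?_ (by positivity)
      exact mul_le_mul_of_nonneg_left hk (by positivity)
    refine b5.trans ?_
    rw [div_lt_iff₀ (by positivity)] at hN
    have b6 : (1 + c) * (η⁻¹ * (|CF| * m / N)) = (8 * (1 + c) * |CF|) * (m / (8 * η * N)) := by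
      field_simp
    rw [b6]
    have b7 : (8 * (1 + c) * |CF|) * (m / (8 * η * N)) ≤ (N * (η * ε)) * (m / (8 * η * N)) :=
      mul_le_mul_of_nonneg_right hN.le (by positivity)
    refine b7.trans (le_of_eq ?_)
    field_simp
  have b8 : (1 + c) * ((T ^ 2)⁻¹ * (MR (fun h => Xd δ k₀ h ^ 2 * E δ h) + MR (fun h => Xd δ k₅ h ^ 2 * E δ h))) ≤
      ε / 8 * m := by
    have b9 : MR (fun h => Xd δ k₀ h ^ 2 * E δ h) + MR (fun h => Xd δ k₅ h ^ 2 * E δ h) ≤ (|C₀| + |C₅|) * m := by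
      have c1 := mul_le_mul_of_nonneg_right (le_abs_self C₀) g2.le
      have c2 := mul_le_mul_of_nonneg_right (le_abs_self C₅) g2.le
      rw [add_mul]
      linarith
    have b10 : (T ^ 2)⁻¹ ≤ T⁻¹ := by
      refine inv_anti₀ hTp ?_
      nlinarith
    have b11 : (1 + c) * ((T ^ 2)⁻¹ * (MR (fun h => Xd δ k₀ h ^ 2 * E δ h) + MR (fun h => Xd δ k₅ h ^ 2 * E δ h))) ≤
        (1 + c) * (T⁻¹ * ((|C₀| + |C₅|) * m)) := by
      refine mul_le_mul_of_nonneg_left ?_ (by positivity)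
      refine (mul_le_mul_of_nonneg_left b9 (by positivity)).trans ?_
      exact mul_le_mul_of_nonneg_right b10 (by positivity)
    refine b11.trans ?_
    have b12 : 8 * (1 + c) * (|C₀| + |C₅|) ≤ T * ε := by
      rw [hT, add_mul, div_mul_cancel₀ _ hε.ne', one_mul]
      linarith
    have b13 : (1 + c) * (T⁻¹ * ((|C₀| + |C₅|) * m)) = (8 * (1 + c) * (|C₀| + |C₅|)) * (m / (8 * T)) := by
      field_simp
    rw [b13]
    have b14 := mul_le_mul_of_nonneg_right b12 (show 0 ≤ m / (8 * T) by positivity)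
    refine b14.trans (le_of_eq ?_)
    field_simp
  have b15 : 0 < ε * m := mul_pos hε g2
  nlinarith [b1, b2, b3, b4, b8, b15]

/-- **The shift theorem for product weights.** Every factor is bounded and local in one of the six regions. -/
theorem shift_prod (hdl : Deloc) {l : Filter ℝ} (hl : l ≤ 𝓝[>] 0) {E : ℝ → (V → ℤ) → ℝ} (hW : WDat l E)
    {m₀ : ℝ} (hm : 0 < m₀) (hlow : ∀ᶠ δ in l, m₀ ≤ MR (E δ)) {s : Fin 6 → ℝ} {κ : ℝ} (hκ : 0 < κ)
    (hne : (Qr fun i => s i - κ).Nonempty) {ι : Type} [Fintype ι] (e : ι → ℝ → (V → ℤ) → ℝ)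
    (he : ∀ a, ∃ i, AB false (Rr (fun i => s i - κ) (fun i => s i + κ) i) (fun δ => cx (e a δ)))
    (hE : ∀ᶠ δ in l, ∀ h, E δ h = ∏ a, e a δ h)
    {u f : Pl → ℝ} (hu : Cc u) (hus : tsupport u ⊆ Qr fun i => s i - κ) (hf : Cc f) :
    Tendsto (fun δ => qt E (fun δ h => Real.cos (Xd δ (fun w => f w + lap u w) h)) δ -
      Real.exp (Kc hdl / 2 * JJ f u) * qt E (fun δ h => Real.cos (Xd δ f h)) δ) l (𝓝 0) := by
  classical
  choose reg hreg using he
  refine shift_main hdl hl hW hm hlow hκ hne (fun p q h1 h2 h3 => ?_) hu hus hf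
  refine cutP_prod hdl hl h2 (fun i δ h => ∏ a ∈ Finset.univ.filter (fun a => reg a = i), e a δ h) (fun i => ?_) ?_
  · have h4 := AB_prod hdl (Finset.univ.filter (fun a => reg a = i)) (K := Rr p q i) (F := fun a δ => cx (e a δ))
      fun a ha => by
        have h5 := hreg a
        rw [(Finset.mem_filter.1 ha).2] at h5
        exact (PL.cls_AB hdl).mono (Rr_mono (fun i => (h1 i).le) (fun i => (h3 i).le) i) h5
    have e1 : (fun (δ : ℝ) (h : V → ℤ) => ∏ a ∈ Finset.univ.filter (fun a => reg a = i), cx (e a δ) h) =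
        fun δ => cx (fun h => ∏ a ∈ Finset.univ.filter (fun a => reg a = i), e a δ h) := by
      funext δ h
      simp only [cx]
      rw [Complex.ofReal_prod]
    rw [e1] at h4
    exact h4
  · filter_upwards [hE] with δ hδ h
    rw [hδ h]
    exact (Finset.prod_fiberwise_of_maps_to (fun a _ => Finset.mem_univ (reg a)) fun a => e a δ h).symm

end DV
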