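import Pool.Agent.Helper33.DV.Pm4
import Pool.Agent.Helper34.GF.F6

/-!
# Project DV, block PL3: characters of the field

`chr δ f h = exp (i X_f)`, where `X_f = Xd δ f h` is the pairing at the mesh `δ`.
-/

open MeasureTheory Filter Topology

namespace DV

open RP4 (V Om dom avg mu Loc Deloc mass)
open GF (Pl Cc Ne lap rf refl ell Dir)
open GF.Lat (ld DirZ lref Xd win dr mass_off sum_mass Xd_eq cc_box)

/-- the sites with non zero mass -/
noncomputable def ms (δ : ℝ) (f : Pl → ℝ) : Finset V := by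
  classical exact if h : {x : V | mass δ f x ≠ 0}.Finite then h.toFinset else ∅

/-- the character of the field -/
noncomputable def chr (δ : ℝ) (f : Pl → ℝ) : (V → ℤ) → ℂ :=
  fun h => Complex.exp ((Xd δ f h : ℝ) * Complex.I)

lemma mem_ms {δ : ℝ} (hδ : 0 < δ) {f : Pl → ℝ} (hf : Cc f) {x : V} :
    x ∈ ms δ f ↔ mass δ f x ≠ 0 := by
  classical
  obtain ⟨R, hR, h⟩ := cc_box hf
  have hfin : {x : V | mass δ f x ≠ 0}.Finite := by
    refine (win δ R).finite_toSet.subset fun y hy => ?_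
    by_contra hc
    exact hy (mass_off hδ hR.le h (by simpa using hc))
  unfold ms
  rw [dif_pos hfin]
  simp

lemma Xd_ms {δ : ℝ} (hδ : 0 < δ) {f : Pl → ℝ} (hf : Cc f) (h : V → ℤ) :
    Xd δ f h = ∑ x ∈ ms δ f, mass δ f x * (h x : ℝ) := by
  unfold GF.Lat.Xd
  refine tsum_eq_sum fun x hx => ?_
  have h1 : mass δ f x = 0 := by
    by_contra hc
    exact hx ((mem_ms hδ hf).2 hc)
  rw [h1, zero_mul]

lemma Xd_add {δ : ℝ} (hδ : 0 < δ) {f g : Pl → ℝ} (hf : Cc f) (hg : Cc g) (h : V → ℤ) :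
    Xd δ (fun z => f z + g z) h = Xd δ f h + Xd δ g h := by
  classical
  obtain ⟨R, hR, h1⟩ := cc_box hf
  obtain ⟨S, hS, h2⟩ := cc_box hg
  have h1' : ∀ z, f z ≠ 0 → |z.1| ≤ max R S ∧ |z.2| ≤ max R S := fun z hz =>
    ⟨(h1 z hz).1.trans (le_max_left _ _), (h1 z hz).2.trans (le_max_left _ _)⟩
  have h2' : ∀ z, g z ≠ 0 → |z.1| ≤ max R S ∧ |z.2| ≤ max R S := fun z hz =>
    ⟨(h2 z hz).1.trans (le_max_right _ _), (h2 z hz).2.trans (le_max_right _ _)⟩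
  have h3' : ∀ z, f z + g z ≠ 0 → |z.1| ≤ max R S ∧ |z.2| ≤ max R S := by
    intro z hz
    by_cases hfz : f z = 0
    · refine h2' z fun hc => hz ?_
      rw [hfz, hc, add_zero]
    · exact h1' z hfz
  have hm : 0 ≤ max R S := hR.le.trans (le_max_left _ _)
  rw [Xd_eq hδ hm h3' (Finset.Subset.refl _), Xd_eq hδ hm h1' (Finset.Subset.refl _),
    Xd_eq hδ hm h2' (Finset.Subset.refl _), ← Finset.sum_add_distrib]
  refine Finset.sum_congr rfl fun x _ => ?_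
  rw [GF.Lat.mass_add δ hf.integrable hg.integrable]
  ring

lemma Xd_neg (δ : ℝ) (f : Pl → ℝ) (h : V → ℤ) : Xd δ (fun z => -f z) h = -Xd δ f h := by
  unfold GF.Lat.Xd
  rw [← tsum_neg]
  refine tsum_congr fun x => ?_
  unfold RP4.mass
  rw [integral_neg]
  ring

lemma Xd_smul (δ c : ℝ) (f : Pl → ℝ) (h : V → ℤ) : Xd δ (fun z => c * f z) h = c * Xd δ f h := by
  unfold GF.Lat.Xd
  rw [← tsum_mul_left]
  refine tsum_congr fun x => ?_
  rw [GF.Lat.mass_smul]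
  ring

lemma sum_ms {δ : ℝ} (hδ : 0 < δ) {f : Pl → ℝ} (hf : Cc f) : ∑ x ∈ ms δ f, mass δ f x = ∫ z, f z := by
  classical
  obtain ⟨R, hR, h⟩ := cc_box hf
  rw [← sum_mass hδ hR.le hf.integrable h (Finset.Subset.refl _)]
  refine Finset.sum_subset (fun x hx => ?_) fun x _ hx => ?_
  · by_contra hc
    exact (mem_ms hδ hf).1 hx (mass_off hδ hR.le h hc)
  · by_contra hc
    exact hx ((mem_ms hδ hf).2 hc)

lemma Xd_lev {δ : ℝ} (hδ : 0 < δ) {f : Pl → ℝ} (hf : Cc f) (k : ℤ) (h : V → ℤ) :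
    Xd δ f (lev k h) = Xd δ f h - 2 * k * ∫ z, f z := by
  rw [Xd_ms hδ hf, Xd_ms hδ hf, ← sum_ms hδ hf, Finset.mul_sum, ← Finset.sum_sub_distrib]
  refine Finset.sum_congr rfl fun x _ => ?_
  unfold lev
  push_cast
  ring

lemma Xd_al {δ : ℝ} (hδ : 0 < δ) {f : Pl → ℝ} (hf : Cc f) (h h' : V → ℤ)
    (H : ∀ x ∈ ms δ f, h x = h' x) : Xd δ f h = Xd δ f h' := by
  rw [Xd_ms hδ hf, Xd_ms hδ hf]
  exact Finset.sum_congr rfl fun x hx => by rw [H x hx]

lemma norm_chr (δ : ℝ) (f : Pl → ℝ) (h : V → ℤ) : ‖chr δ f h‖ = 1 := by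
  unfold chr
  exact Complex.norm_exp_ofReal_mul_I _

lemma chr_al {δ : ℝ} (hδ : 0 < δ) {f : Pl → ℝ} (hf : Cc f) : AL (ms δ f) (chr δ f) := by
  intro h h' H
  unfold chr
  rw [Xd_al hδ hf h h' H]

lemma chr_phs {δ : ℝ} (hδ : 0 < δ) {f : Pl → ℝ} (hf : Cc f) : Phs (∫ z, f z) (chr δ f) := by
  intro k h
  unfold chr
  rw [Xd_lev hδ hf, ← Complex.exp_add]
  congr 1
  push_cast
  ring

lemma chr_add {δ : ℝ} (hδ : 0 < δ) {f g : Pl → ℝ} (hf : Cc f) (hg : Cc g) (h : V → ℤ) :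
    chr δ (fun z => f z + g z) h = chr δ f h * chr δ g h := by
  unfold chr
  rw [Xd_add hδ hf hg, ← Complex.exp_add]
  congr 1
  push_cast
  ring

lemma chr_conj (δ : ℝ) (f : Pl → ℝ) (h : V → ℤ) :
    (starRingEnd ℂ) (chr δ f h) = chr δ (fun z => -f z) h := by
  unfold chr
  rw [Xd_neg, ← Complex.exp_conj, map_mul, Complex.conj_ofReal, Complex.conj_I]
  congr 1
  push_cast
  ring

lemma chr_rfo {d : ℤ × ℤ} (hd : DirZ d) {δ : ℝ} (hδ : 0 < δ) (m : ℤ) (f : Pl → ℝ) :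
    rfo d m (chr δ f) = chr δ (rf (dr d) (δ * m) f) := by
  funext h
  unfold rfo chr
  rw [GF.Lat.Xd_rf hd hδ]

/-- the character is close to one for a small field -/
lemma norm_chr_sub_one (δ : ℝ) (f : Pl → ℝ) (h : V → ℤ) : ‖chr δ f h - 1‖ ≤ |Xd δ f h| := by
  unfold chr
  have := Real.norm_exp_I_mul_ofReal_sub_one_le (x := Xd δ f h)
  rwa [mul_comm, Real.norm_eq_abs] at this

/-- the sites of a test function supported in an open set stay in the open set -/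
lemma ms_mem {f : Pl → ℝ} (hf : Cc f) {W : Set Pl} (hW : IsOpen W) (hs : tsupport f ⊆ W) :
    ∃ ε : ℝ, 0 < ε ∧ ∀ᶠ δ in 𝓝[>] (0 : ℝ), ∀ x ∈ ms δ f, ∀ z : Pl,
      dist z (δ * (x.1 : ℝ), δ * (x.2 : ℝ)) ≤ ε → z ∈ W := by
  obtain ⟨e, he, h⟩ := hf.supp.isCompact.exists_cthickening_subset_open hW hs
  refine ⟨e / 2, half_pos he, ?_⟩
  filter_upwards [Ioo_mem_nhdsGT (half_pos he)] with δ hδ x hx z hz
  rw [mem_ms hδ.1 hf] at hx
  have h1 : ∃ y ∈ RP4.cell δ x, f y ≠ 0 := by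
    by_contra hc
    push Not at hc
    exact hx (setIntegral_eq_zero_of_forall_eq_zero hc)
  obtain ⟨y, ⟨⟨h2, h3⟩, h4, h5⟩, hy⟩ := h1
  refine h ?_
  refine Metric.mem_cthickening_of_dist_le z y e _ (subset_tsupport f hy) ?_
  have h6 : dist (δ * (x.1 : ℝ), δ * (x.2 : ℝ)) y ≤ δ := by
    rw [Prod.dist_eq, Real.dist_eq, Real.dist_eq]
    refine max_le ?_ ?_
    · rw [abs_le]
      constructor <;> linarith [hδ.1]
    · rw [abs_le]
      constructor <;> linarith [hδ.1]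
  have h7 := dist_triangle z (δ * (x.1 : ℝ), δ * (x.2 : ℝ)) y
  linarith [hδ.2]

end DV
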