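import Pool.Agent.Helper27.GF.Cal2
import Pool.Agent.Helper75.GF.L3a

/-!
# Project DV, block PL3: cutting a test function along six lines

The six directions `dd i`, the levels `LL i`, the regions `Qr p` (behind all lines) and `Rr p q i` (beyond the line `i`
and behind the lines `j < i`).  `cut6`: for every `N` there are `N` decompositions of `f`, whose remainders have
total mass at most `6 |f|`.
-/

open MeasureTheory Filter Topology

namespace DV

open GF (Pl Cc ell)
open GF.Lat (DirZ dr)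

/-- the six directions -/
def dd : Fin 6 → ℤ × ℤ := ![(1, 0), (1, 1), (0, 1), (-1, 1), (-1, 0), (-1, -1)]

lemma dd_dir (i : Fin 6) : DirZ (dd i) := by
  fin_cases i <;> simp [dd, DirZ]

/-- the level of a point in the direction `i` -/
noncomputable def LL (i : Fin 6) (z : Pl) : ℝ := ell (dr (dd i)) z

/-- the points behind all six lines -/
def Qr (p : Fin 6 → ℝ) : Set Pl := {z | ∀ i, LL i z < p i}

/-- the points beyond the line `i` and behind the lines `j < i` -/
def Rr (p q : Fin 6 → ℝ) (i : Fin 6) : Set Pl := {z | q i < LL i z ∧ ∀ j < i, LL j z < p j}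

lemma LL_smooth (i : Fin 6) : ContDiff ℝ (⊤ : ℕ∞) (LL i) := by
  unfold LL ell
  exact (contDiff_const.mul contDiff_fst).add (contDiff_const.mul contDiff_snd)

lemma Qr_open (p : Fin 6 → ℝ) : IsOpen (Qr p) := by
  have : Qr p = ⋂ i, {z | LL i z < p i} := by
    ext z
    simp [Qr]
  rw [this]
  exact isOpen_iInter_of_finite fun i => isOpen_lt (LL_smooth i).continuous continuous_const

lemma Rr_open (p q : Fin 6 → ℝ) (i : Fin 6) : IsOpen (Rr p q i) := by
  have : Rr p q i = {z | q i < LL i z} ∩ ⋂ j : Fin 6, {z | j < i → LL j z < p j} := by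
    ext z
    simp [Rr]
  rw [this]
  refine (isOpen_lt continuous_const (LL_smooth i).continuous).inter (isOpen_iInter_of_finite fun j => ?_)
  by_cases hj : j < i
  · simp only [hj, forall_const]
    exact isOpen_lt (LL_smooth j).continuous continuous_const
  · simp only [hj, false_imp_iff, Set.ofPred_true]
    exact isOpen_univ

lemma Qr_mono {p p' : Fin 6 → ℝ} (h : ∀ i, p i ≤ p' i) : Qr p ⊆ Qr p' :=
  fun _ hz i => (hz i).trans_le (h i)

lemma Rr_mono {p p' q q' : Fin 6 → ℝ} (h : ∀ i, p i ≤ p' i) (h' : ∀ i, q' i ≤ q i) (i : Fin 6) :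
    Rr p q i ⊆ Rr p' q' i :=
  fun _ hz => ⟨(h' i).trans_lt hz.1, fun j hj => (hz.2 j hj).trans_le (h j)⟩

/-- the products of the first factors -/
def PP (a : Fin 6 → ℝ) : Fin 6 → ℝ :=
  ![1, a 0, a 0 * a 1, a 0 * a 1 * a 2, a 0 * a 1 * a 2 * a 3, a 0 * a 1 * a 2 * a 3 * a 4]

/-- the product of all factors -/
def PA (a : Fin 6 → ℝ) : ℝ := a 0 * a 1 * a 2 * a 3 * a 4 * a 5

lemma PP_id (a b : Fin 6 → ℝ) :
    PA a + (∑ i, PP a i * b i) + ∑ i, PP a i * (1 - a i - b i) = 1 := by
  simp only [Fin.sum_univ_six]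
  simp only [PA, PP, Matrix.cons_val]
  ring

lemma PP_nonneg {a : Fin 6 → ℝ} (h : ∀ i, 0 ≤ a i) (i : Fin 6) : 0 ≤ PP a i := by
  have h0 := h 0
  have h1 := h 1
  have h2 := h 2
  have h3 := h 3
  have h4 := h 4
  fin_cases i
  · show (0 : ℝ) ≤ 1
    positivity
  · exact h0
  · show 0 ≤ a 0 * a 1
    positivity
  · show 0 ≤ a 0 * a 1 * a 2
    positivity
  · show 0 ≤ a 0 * a 1 * a 2 * a 3
    positivity
  · show 0 ≤ a 0 * a 1 * a 2 * a 3 * a 4
    positivity

lemma PP_le_one {a : Fin 6 → ℝ} (h : ∀ i, 0 ≤ a i) (h' : ∀ i, a i ≤ 1) (i : Fin 6) : PP a i ≤ 1 := by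
  have h0 := h 0
  have h1 := h 1
  have h2 := h 2
  have h3 := h 3
  have h4 := h 4
  have k1 : a 0 * a 1 ≤ 1 := mul_le_one₀ (h' 0) h1 (h' 1)
  have k2 : a 0 * a 1 * a 2 ≤ 1 := mul_le_one₀ k1 h2 (h' 2)
  have k3 : a 0 * a 1 * a 2 * a 3 ≤ 1 := mul_le_one₀ k2 h3 (h' 3)
  have k4 : a 0 * a 1 * a 2 * a 3 * a 4 ≤ 1 := mul_le_one₀ k3 h4 (h' 4)
  fin_cases i
  · exact le_rfl
  · exact h' 0
  · exact k1
  · exact k2
  · exact k3
  · exact k4

lemma PP_ne {a : Fin 6 → ℝ} {i : Fin 6} (h : PP a i ≠ 0) : ∀ j < i, a j ≠ 0 := by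
  intro j hj hc
  apply h
  fin_cases i <;> fin_cases j <;>
    first
    | (exfalso; revert hj; decide)
    | (simp only [Fin.zero_eta, Fin.mk_one, Fin.reduceFinMk] at hc
       simp [PP, hc])

lemma PA_ne {a : Fin 6 → ℝ} (h : PA a ≠ 0) : ∀ j, a j ≠ 0 := by
  intro j hc
  apply h
  unfold PA
  fin_cases j <;> simp only [Fin.zero_eta, Fin.mk_one, Fin.reduceFinMk] at hc <;> simp [hc]

lemma PP_smooth {a : Fin 6 → Pl → ℝ} (h : ∀ i, ContDiff ℝ (⊤ : ℕ∞) (a i)) (i : Fin 6) :
    ContDiff ℝ (⊤ : ℕ∞) (fun z => PP (fun j => a j z) i) := by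
  have h0 := h 0
  have h1 := h 1
  have h2 := h 2
  have h3 := h 3
  have h4 := h 4
  fin_cases i
  · exact contDiff_const
  · exact h0
  · exact h0.mul h1
  · exact (h0.mul h1).mul h2
  · exact ((h0.mul h1).mul h2).mul h3
  · exact (((h0.mul h1).mul h2).mul h3).mul h4

lemma PA_smooth {a : Fin 6 → Pl → ℝ} (h : ∀ i, ContDiff ℝ (⊤ : ℕ∞) (a i)) :
    ContDiff ℝ (⊤ : ℕ∞) (fun z => PA (fun j => a j z)) := by
  unfold PA
  exact (((((h 0).mul (h 1)).mul (h 2)).mul (h 3)).mul (h 4)).mul (h 5)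

/-- a smooth monotone step -/
noncomputable def st (x : ℝ) : ℝ := Real.smoothTransition x

lemma st_smooth : ContDiff ℝ (⊤ : ℕ∞) st := Real.smoothTransition.contDiff

/-- the sum of the gaps -/
lemma gap_sum (y : ℝ) (N : ℕ) :
    ∑ k : Fin N, (st (y - 3 * (k : ℕ)) - st (y - (3 * (k : ℕ) + 2))) ≤ 1 := by
  have h1 : ∀ k ∈ Finset.range N, st (y - 3 * (k : ℕ)) - st (y - (3 * (k : ℕ) + 2)) ≤
      st (y - 3 * (k : ℕ)) - st (y - 3 * ((k + 1 : ℕ) : ℕ)) := by
    intro k _
    have : st (y - 3 * ((k + 1 : ℕ) : ℕ)) ≤ st (y - (3 * (k : ℕ) + 2)) := by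
      refine Real.smoothTransition.monotone ?_
      push_cast
      linarith
    linarith
  have h2 := Finset.sum_le_sum h1
  rw [Finset.sum_range_sub' (fun k : ℕ => st (y - 3 * (k : ℕ)))] at h2
  rw [Fin.sum_univ_eq_sum_range (fun k : ℕ => st (y - 3 * (k : ℕ)) - st (y - (3 * (k : ℕ) + 2)))]
  refine h2.trans ?_
  have h3 : st (y - 3 * ((0 : ℕ) : ℝ)) ≤ 1 := Real.smoothTransition.le_one _
  have h4 : 0 ≤ st (y - 3 * (N : ℝ)) := Real.smoothTransition.nonneg _
  linarith

lemma gap_nonneg (y : ℝ) (k : ℕ) : 0 ≤ st (y - 3 * k) - st (y - (3 * k + 2)) := by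
  have : st (y - (3 * (k : ℝ) + 2)) ≤ st (y - 3 * k) := by
    refine Real.smoothTransition.monotone ?_
    linarith
  linarith

/-- the data of the decompositions -/
structure Cutt (f : Pl → ℝ) (s : Fin 6 → ℝ) (κ : ℝ) (N : ℕ) where
  g : Fin N → Pl → ℝ
  fi : Fin N → Fin 6 → Pl → ℝ
  r : Fin N → Pl → ℝ
  p : Fin N → Fin 6 → ℝ
  q : Fin N → Fin 6 → ℝ
  lt_p : ∀ k i, s i - κ < p k i
  p_lt_q : ∀ k i, p k i < q k i
  q_lt : ∀ k i, q k i < s i + κ
  cg : ∀ k, Cc (g k)
  cf : ∀ k i, Cc (fi k i)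
  cr : ∀ k, Cc (r k)
  dec : ∀ k z, f z = g k z + (∑ i, fi k i z) + r k z
  sg : ∀ k, tsupport (g k) ⊆ Qr (p k)
  sf : ∀ k i, tsupport (fi k i) ⊆ Rr (p k) (q k) i
  eqg : ∀ k, ∀ z ∈ Qr (fun i => s i - κ), g k z = f z
  sumr : ∀ z, ∑ k, |r k z| ≤ 6 * |f z|

/-- **Cutting along six lines.** -/
theorem cut6 {f : Pl → ℝ} (hf : Cc f) (s : Fin 6 → ℝ) {κ : ℝ} (hκ : 0 < κ) (N : ℕ) :
    Nonempty (Cutt f s κ N) := by
  rcases Nat.eq_zero_or_pos N with hN | hN
  · subst hN
    exact ⟨⟨fun k => k.elim0, fun k => k.elim0, fun k => k.elim0, fun k => k.elim0, fun k => k.elim0,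
      fun k => k.elim0, fun k => k.elim0, fun k => k.elim0, fun k => k.elim0, fun k => k.elim0, fun k => k.elim0,
      fun k => k.elim0, fun k => k.elim0, fun k => k.elim0, fun k => k.elim0, fun z => by
        simp only [Finset.univ_eq_empty, Finset.sum_empty]
        positivity⟩⟩
  have hN' : (0 : ℝ) < N := by exact_mod_cast hN
  set ω : ℝ := 2 * κ / (3 * N) with hω
  have hωp : 0 < ω := by positivity
  have hωN : ω * (3 * N) = 2 * κ := by
    rw [hω]
    field_simp
  set Y : Fin 6 → Pl → ℝ := fun i z => (LL i z - (s i - κ)) / ω with hY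
  have Ysm : ∀ i, ContDiff ℝ (⊤ : ℕ∞) (Y i) := fun i => ((LL_smooth i).sub contDiff_const).div_const _
  have YL : ∀ i z, LL i z = s i - κ + ω * Y i z := by
    intro i z
    simp only [hY]
    field_simp
    ring
  set a : Fin N → Fin 6 → Pl → ℝ := fun k i z => 1 - st (Y i z - 3 * (k : ℕ)) with ha
  set b : Fin N → Fin 6 → Pl → ℝ := fun k i z => st (Y i z - (3 * (k : ℕ) + 2)) with hb
  have sa : ∀ k i, ContDiff ℝ (⊤ : ℕ∞) (a k i) := fun k i =>
    contDiff_const.sub (st_smooth.comp ((Ysm i).sub contDiff_const))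
  have sb : ∀ k i, ContDiff ℝ (⊤ : ℕ∞) (b k i) := fun k i =>
    st_smooth.comp ((Ysm i).sub contDiff_const)
  have a0 : ∀ k i z, 0 ≤ a k i z := fun k i z => sub_nonneg.2 (Real.smoothTransition.le_one _)
  have a1 : ∀ k i z, a k i z ≤ 1 := fun k i z => sub_le_self _ (Real.smoothTransition.nonneg _)
  have ane : ∀ k i z, a k i z ≠ 0 → Y i z ≤ 3 * (k : ℕ) + 1 := by
    intro k i z h
    by_contra hc
    push Not at hc
    apply h
    simp only [ha, st]
    rw [Real.smoothTransition.one_of_one_le (by linarith), sub_self]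
  have bne : ∀ k i z, b k i z ≠ 0 → 3 * (k : ℕ) + 2 ≤ Y i z := by
    intro k i z h
    by_contra hc
    push Not at hc
    apply h
    simp only [hb, st]
    rw [Real.smoothTransition.zero_of_nonpos (by linarith)]
  have e0 : ∀ k i z, 0 ≤ 1 - a k i z - b k i z := by
    intro k i z
    have := gap_nonneg (Y i z) k
    simp only [ha, hb]
    linarith
  set p : Fin N → Fin 6 → ℝ := fun k i => s i - κ + ω * (3 * (k : ℕ) + 4 / 3) with hp
  set q : Fin N → Fin 6 → ℝ := fun k i => s i - κ + ω * (3 * (k : ℕ) + 5 / 3) with hq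
  have hk : ∀ k : Fin N, ((k : ℕ) : ℝ) + 1 ≤ N := fun k => by exact_mod_cast k.2
  have YP : ∀ (k : Fin N) i z, Y i z ≤ 3 * (k : ℕ) + 1 → LL i z < p k i := by
    intro k i z h
    rw [YL]
    simp only [hp]
    have : ω * Y i z < ω * (3 * (k : ℕ) + 4 / 3) := mul_lt_mul_of_pos_left (by linarith) hωp
    linarith
  have YQ : ∀ (k : Fin N) i z, 3 * ((k : ℕ) : ℝ) + 2 ≤ Y i z → q k i < LL i z := by
    intro k i z h
    rw [YL]
    simp only [hq]
    have : ω * (3 * (k : ℕ) + 5 / 3) < ω * Y i z := mul_lt_mul_of_pos_left (by linarith) hωp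
    linarith
  have cY : ∀ i, Continuous (Y i) := fun i => (Ysm i).continuous
  refine ⟨{ g := fun k z => f z * PA (fun j => a k j z)
            fi := fun k i z => f z * (PP (fun j => a k j z) i * b k i z)
            r := fun k z => f z * ∑ i, PP (fun j => a k j z) i * (1 - a k i z - b k i z)
            p := p
            q := q
            lt_p := ?_
            p_lt_q := ?_
            q_lt := ?_
            cg := fun k => hf.mul (PA_smooth (sa k))
            cf := fun k i => hf.mul ((PP_smooth (sa k) i).mul (sb k i))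
            cr := fun k => hf.mul (ContDiff.sum fun i _ =>
              (PP_smooth (sa k) i).mul ((contDiff_const.sub (sa k i)).sub (sb k i)))
            dec := ?_
            sg := ?_
            sf := ?_
            eqg := ?_
            sumr := ?_ }⟩
  · intro k i
    simp only [hp]
    have : 0 < ω * (3 * (k : ℕ) + 4 / 3) := by positivity
    linarith
  · intro k i
    simp only [hp, hq]
    have : ω * (3 * ((k : ℕ) : ℝ) + 4 / 3) < ω * (3 * (k : ℕ) + 5 / 3) := mul_lt_mul_of_pos_left (by linarith) hωp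
    linarith
  · intro k i
    simp only [hq]
    have : ω * (3 * ((k : ℕ) : ℝ) + 5 / 3) < ω * (3 * N) := mul_lt_mul_of_pos_left (by linarith [hk k]) hωp
    linarith
  · intro k z
    have h := PP_id (fun j => a k j z) (fun j => b k j z)
    rw [← Finset.mul_sum, ← mul_add, ← mul_add]
    rw [h, mul_one]
  · intro k
    have h1 : tsupport (fun z => f z * PA (fun j => a k j z)) ⊆ {z | ∀ i, Y i z ≤ 3 * (k : ℕ) + 1} := by
      refine closure_minimal ?_ ?_
      · intro z hz i
        exact ane k i z (PA_ne (right_ne_zero_of_mul hz) i)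
      · rw [Set.ofPred_forall]
        exact isClosed_iInter fun i => isClosed_le (cY i) continuous_const
    exact fun z hz i => YP k i z (h1 hz i)
  · intro k i
    have h1 : tsupport (fun z => f z * (PP (fun j => a k j z) i * b k i z)) ⊆
        {z | 3 * ((k : ℕ) : ℝ) + 2 ≤ Y i z} ∩ {z | ∀ j < i, Y j z ≤ 3 * (k : ℕ) + 1} := by
      refine closure_minimal ?_ ?_
      · intro z hz
        have h2 := right_ne_zero_of_mul hz
        exact ⟨bne k i z (right_ne_zero_of_mul h2), fun j hj => ane k j z (PP_ne (left_ne_zero_of_mul h2) j hj)⟩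
      · refine (isClosed_le continuous_const (cY i)).inter ?_
        have : {z | ∀ j < i, Y j z ≤ 3 * ((k : ℕ) : ℝ) + 1} = ⋂ j : Fin 6, ⋂ (_ : j < i), {z | Y j z ≤ 3 * ((k : ℕ) : ℝ) + 1} := by
          ext z
          simp
        rw [this]
        exact isClosed_iInter fun j => isClosed_iInter fun _ => isClosed_le (cY j) continuous_const
    exact fun z hz => ⟨YQ k i z (h1 hz).1, fun j hj => YP k j z ((h1 hz).2 j hj)⟩
  · intro k z hz
    have h1 : ∀ i, a k i z = 1 := by
      intro i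
      have h2 : Y i z ≤ 0 := by
        simp only [hY]
        exact div_nonpos_of_nonpos_of_nonneg (by have := hz i; simp only at this; linarith) hωp.le
      simp only [ha, st]
      rw [Real.smoothTransition.zero_of_nonpos, sub_zero]
      have : (0 : ℝ) ≤ (k : ℕ) := Nat.cast_nonneg _
      linarith
    simp only [PA, h1]
    ring
  · intro z
    have h1 : ∀ k : Fin N, |f z * ∑ i, PP (fun j => a k j z) i * (1 - a k i z - b k i z)| ≤
        |f z| * ∑ i, (1 - a k i z - b k i z) := by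
      intro k
      rw [abs_mul]
      refine mul_le_mul_of_nonneg_left ?_ (abs_nonneg _)
      rw [abs_of_nonneg (Finset.sum_nonneg fun i _ => mul_nonneg (PP_nonneg (fun j => a0 k j z) i) (e0 k i z))]
      exact Finset.sum_le_sum fun i _ => mul_le_of_le_one_left (e0 k i z)
        (PP_le_one (fun j => a0 k j z) (fun j => a1 k j z) i)
    refine (Finset.sum_le_sum fun k _ => h1 k).trans ?_
    rw [← Finset.mul_sum, Finset.sum_comm, mul_comm (6 : ℝ)]
    refine mul_le_mul_of_nonneg_left ?_ (abs_nonneg _)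
    have h2 : ∀ i : Fin 6, ∑ k : Fin N, (1 - a k i z - b k i z) ≤ 1 := by
      intro i
      refine le_trans (le_of_eq ?_) (gap_sum (Y i z) N)
      refine Finset.sum_congr rfl fun k _ => ?_
      simp only [ha, hb]
      ring
    refine (Finset.sum_le_sum fun i _ => h2 i).trans ?_
    simp

end DV
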