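import Pool.Agent.Helper83.DV.Df
import Pool.Agent.Helper83.DV.Ct
import Pool.Agent.Helper27.PL.P6
import Pool.Agent.Helper33.DV.Ev2

/-!
# Project DV, block PL3: the cut property of a product weight

`pnd δ T k` is the indicator of `|X_k| ≤ T` on height functions.  `CutP`: the mean of the observable with vanishing defect
times characters of charges beyond the six lines, two pins and the weight tends to zero.
-/

open MeasureTheory Filter Topology ComplexConjugate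

namespace DV

open RP4 (V Om dom BdryPar Deloc mass dist1)
open GF (Pl Cc ell lap Kc bx)
open GF.Lat (Xd win cc_box DirZ dr)
open PL (Fam InR AB UP PinF PinC LocC mulF sc pl)

/-- the height bound of a pin -/
noncomputable def pinN (δ T : ℝ) (k : Pl → ℝ) : ℤ :=
  ⌈T + ∑ y ∈ ms δ k, ∑ x ∈ ms δ k, |mass δ k x| * (dist1 x y : ℝ)⌉

open Classical in
/-- the pin `|X_k| ≤ T` -/
noncomputable def pnd (δ T : ℝ) (k : Pl → ℝ) (h : V → ℤ) : ℝ :=
  if |Xd δ k h| ≤ T ∧ ∃ x ∈ ms δ k, |h x| ≤ pinN δ T k then 1 else 0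

lemma pnd_nonneg (δ T : ℝ) (k : Pl → ℝ) (h : V → ℤ) : 0 ≤ pnd δ T k h := by
  unfold pnd
  split_ifs <;> norm_num

lemma pnd_le_one (δ T : ℝ) (k : Pl → ℝ) (h : V → ℤ) : pnd δ T k h ≤ 1 := by
  unfold pnd
  split_ifs <;> norm_num

/-- on height functions the second condition holds automatically -/
lemma pnd_eq_one {δ : ℝ} (hδ : 0 < δ) {k : Pl → ℝ} (hk : Cc k) (h1 : ∫ z, k z = 1) {T : ℝ} {h : V → ℤ}
    (hh : GH h) (hT : |Xd δ k h| ≤ T) : pnd δ T k h = 1 := by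
  classical
  unfold pnd
  rw [if_pos]
  refine ⟨hT, ?_⟩
  have hs := sum_ms hδ hk
  rw [h1] at hs
  have hne : (ms δ k).Nonempty := by
    by_contra hc
    rw [Finset.not_nonempty_iff_eq_empty] at hc
    rw [hc, Finset.sum_empty] at hs
    exact zero_ne_one hs
  obtain ⟨y, hy⟩ := hne
  refine ⟨y, hy, ?_⟩
  have h2 : (h y : ℝ) = Xd δ k h - ∑ x ∈ ms δ k, mass δ k x * ((h x : ℝ) - h y) := by
    rw [Xd_ms hδ hk, ← Finset.sum_sub_distrib]
    have h3 : ∀ x ∈ ms δ k, mass δ k x * (h x : ℝ) - mass δ k x * ((h x : ℝ) - h y) = mass δ k x * h y :=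
      fun x _ => by ring
    rw [Finset.sum_congr rfl h3, ← Finset.sum_mul, hs, one_mul]
  have h4 : |∑ x ∈ ms δ k, mass δ k x * ((h x : ℝ) - h y)| ≤
      ∑ x ∈ ms δ k, |mass δ k x| * (dist1 x y : ℝ) := by
    refine (Finset.abs_sum_le_sum_abs _ _).trans (Finset.sum_le_sum fun x _ => ?_)
    rw [abs_mul]
    refine mul_le_mul_of_nonneg_left ?_ (abs_nonneg _)
    have := gh_lip_pm3 hh x y
    exact_mod_cast this
  have hd0 : ∀ x y : V, (0 : ℝ) ≤ (dist1 x y : ℝ) := by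
    intro x y
    have : (0 : ℤ) ≤ dist1 x y := by
      unfold RP4.dist1
      positivity
    exact_mod_cast this
  have h5 : ∑ x ∈ ms δ k, |mass δ k x| * (dist1 x y : ℝ) ≤
      ∑ y ∈ ms δ k, ∑ x ∈ ms δ k, |mass δ k x| * (dist1 x y : ℝ) :=
    Finset.single_le_sum (f := fun y => ∑ x ∈ ms δ k, |mass δ k x| * (dist1 x y : ℝ))
      (fun y _ => Finset.sum_nonneg fun x _ => mul_nonneg (abs_nonneg _) (hd0 x y)) hy
  have h6 : |(h y : ℝ)| ≤ T + ∑ y ∈ ms δ k, ∑ x ∈ ms δ k, |mass δ k x| * (dist1 x y : ℝ) := by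
    rw [h2]
    refine (abs_sub _ _).trans ?_
    linarith
  have h7 : ((|h y| : ℤ) : ℝ) ≤ pinN δ T k := by
    rw [Int.cast_abs]
    exact h6.trans (Int.le_ceil _)
  exact_mod_cast h7

lemma one_sub_pnd_le {δ : ℝ} (hδ : 0 < δ) {k : Pl → ℝ} (hk : Cc k) (h1 : ∫ z, k z = 1) {T : ℝ} (hT : 0 < T)
    {h : V → ℤ} (hh : GH h) : 1 - pnd δ T k h ≤ Xd δ k h ^ 2 / T ^ 2 := by
  by_cases hc : |Xd δ k h| ≤ T
  · rw [pnd_eq_one hδ hk h1 hh hc, sub_self]
    positivity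
  · push Not at hc
    have h2 : 1 ≤ Xd δ k h ^ 2 / T ^ 2 := by
      rw [le_div_iff₀ (by positivity), one_mul, ← sq_abs (Xd δ k h)]
      exact pow_le_pow_left₀ hT.le hc.le 2
    have := pnd_nonneg δ T k h
    linarith

lemma pnd_al {δ : ℝ} (hδ : 0 < δ) {k : Pl → ℝ} (hk : Cc k) (T : ℝ) : AL (ms δ k) (cx (pnd δ T k)) := by
  classical
  intro h h' hh
  simp only [cx, Complex.ofReal_inj]
  have h1 := Xd_al hδ hk h h' hh
  have h2 : (∃ x ∈ ms δ k, |h x| ≤ pinN δ T k) ↔ ∃ x ∈ ms δ k, |h' x| ≤ pinN δ T k := by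
    constructor
    · rintro ⟨x, hx, h3⟩
      exact ⟨x, hx, by rwa [← hh x hx]⟩
    · rintro ⟨x, hx, h3⟩
      exact ⟨x, hx, by rwa [hh x hx]⟩
  unfold pnd
  rw [h1]
  simp only [h2]

/-- the number of levels of a pin -/
lemma pl_pnd_le {δ : ℝ} (hδ : 0 < δ) {k : Pl → ℝ} (hk : Cc k) (h1 : ∫ z, k z = 1) {T : ℝ} (hT : 0 ≤ T)
    (g : V → ℤ) : pl (cx (pnd δ T k)) g ≤ T + 2 := by
  classical
  set X := Xd δ k g with hX
  set I := Finset.Icc ⌈(X - T) / 2⌉ ⌊(X + T) / 2⌋ with hI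
  have hl : ∀ j : ℤ, Xd δ k (lev j g) = X - 2 * j := fun j => by
    rw [Xd_lev hδ hk, h1, mul_one]
  unfold PL.pl
  have hsub : (Function.support fun j : ℤ => ‖cx (pnd δ T k) (lev j g)‖) ⊆ ↑I := by
    intro j hj
    rw [Function.mem_support] at hj
    have h2 : |Xd δ k (lev j g)| ≤ T := by
      by_contra hc
      apply hj
      simp only [cx, pnd]
      rw [if_neg fun h => hc h.1]
      simp
    rw [hl] at h2
    obtain ⟨h3, h4⟩ := abs_le.1 h2
    rw [hI, Finset.coe_Icc, Set.mem_Icc]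
    refine ⟨Int.ceil_le.2 (by linarith), Int.le_floor.2 (by linarith)⟩
  rw [finsum_eq_sum_of_support_subset _ hsub]
  have h3 : ∑ j ∈ I, ‖cx (pnd δ T k) (lev j g)‖ ≤ ∑ _j ∈ I, (1 : ℝ) := by
    refine Finset.sum_le_sum fun j _ => ?_
    simp only [cx]
    rw [Complex.norm_real, Real.norm_eq_abs, abs_of_nonneg (pnd_nonneg _ _ _ _)]
    exact pnd_le_one _ _ _ _
  refine h3.trans ?_
  rw [Finset.sum_const, nsmul_eq_mul, mul_one, hI, Int.card_Icc]
  have h4 := Int.floor_le ((X + T) / 2)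
  have h5 := Int.le_ceil ((X - T) / 2)
  rcases le_or_gt 0 (⌊(X + T) / 2⌋ + 1 - ⌈(X - T) / 2⌉) with h6 | h6
  · have h7 : (((⌊(X + T) / 2⌋ + 1 - ⌈(X - T) / 2⌉).toNat : ℕ) : ℝ) =
        ((⌊(X + T) / 2⌋ + 1 - ⌈(X - T) / 2⌉ : ℤ) : ℝ) := by
      have := Int.toNat_of_nonneg h6
      exact_mod_cast this
    rw [h7]
    push_cast
    linarith
  · rw [Int.toNat_of_nonpos h6.le]
    simp only [Nat.cast_zero]
    linarith

lemma cc_bx {f : Pl → ℝ} (hf : Cc f) : ∃ R : ℝ, 0 < R ∧ tsupport f ⊆ bx 0 R := by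
  obtain ⟨R, hR, h⟩ := hf.box
  refine ⟨R, hR, fun z hz => ?_⟩
  have := h hz
  simpa [bx] using this

lemma bx_open (c : Pl) (R : ℝ) : IsOpen (bx c R) := by
  unfold GF.bx
  exact (isOpen_lt ((continuous_fst.sub continuous_const).abs) continuous_const).inter
    (isOpen_lt ((continuous_snd.sub continuous_const).abs) continuous_const)

/-- the sites of a test function -/
lemma ms_sc {f : Pl → ℝ} (hf : Cc f) {W : Set Pl} (hW : IsOpen W) (hs : tsupport f ⊆ W) :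
    ∀ᶠ δ in 𝓝[>] (0 : ℝ), ∀ x ∈ ms δ f, sc δ x ∈ W := by
  obtain ⟨ε, hε, h⟩ := ms_mem hf hW hs
  filter_upwards [h] with δ h1 x hx
  refine h1 x hx _ ?_
  unfold PL.sc
  rw [dist_self]
  exact hε.le

/-- bounded local families built from a test function -/
lemma AB_of {K : Set Pl} (hK : IsOpen K) {f : Pl → ℝ} (hf : Cc f) (hs : tsupport f ⊆ K) {F : Fam} {C : ℝ}
    (hb : ∀ δ h, ‖F δ h‖ ≤ C) (hl : ∀ δ, 0 < δ → AL (ms δ f) (F δ)) : AB false K F := by
  obtain ⟨R, hR, hfR⟩ := cc_bx hf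
  refine ⟨⟨C, Eventually.of_forall hb⟩, ⟨R, hR, ?_⟩, fun h => by simp at h⟩
  have hpos : ∀ᶠ δ in 𝓝[>] (0 : ℝ), 0 < δ := self_mem_nhdsWithin
  filter_upwards [hpos, ms_sc hf (hK.inter (bx_open 0 R)) (Set.subset_inter hs hfR)] with δ h1 h2
  exact ⟨ms δ f, hl δ h1, h2⟩

lemma AB_chr {K : Set Pl} (hK : IsOpen K) {f : Pl → ℝ} (hf : Cc f) (hs : tsupport f ⊆ K) :
    AB false K (fun δ => chr δ f) :=
  AB_of hK hf hs (C := 1) (fun δ h => (norm_chr δ f h).le) fun _ hδ => chr_al hδ hf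

lemma AB_pnd (hdl : Deloc) {K : Set Pl} (hK : IsOpen K) {k : Pl → ℝ} (hk : Cc k) (h1 : ∫ z, k z = 1)
    (hs : tsupport k ⊆ K) (T : ℝ) : AB true K (fun δ => cx (pnd δ T k)) := by
  have h2 : AB false K (fun δ => cx (pnd δ T k)) := by
    refine AB_of hK hk hs (C := 1) (fun δ h => ?_) fun _ hδ => pnd_al hδ hk T
    simp only [cx]
    rw [Complex.norm_real, Real.norm_eq_abs, abs_of_nonneg (pnd_nonneg _ _ _ _)]
    exact pnd_le_one _ _ _ _
  obtain ⟨h3, ⟨R, hR, h4⟩, _⟩ := h2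
  refine ⟨h3, ⟨R, hR, h4⟩, fun _ => ?_⟩
  have hpos : ∀ᶠ δ in 𝓝[>] (0 : ℝ), 0 < δ := self_mem_nhdsWithin
  refine UP.of_pl hdl (Eventually.of_forall fun δ => ⟨ms δ k, pinN δ T k, fun h hh => ?_⟩) h4 (C := |T| + 2) ?_
  · by_contra hc
    apply hh
    simp only [cx, pnd]
    rw [if_neg fun h => hc h.2]
    simp
  · filter_upwards [hpos] with δ hδ g _
    have h5 := pl_pnd_le hδ hk h1 (abs_nonneg T) g
    rcases le_or_gt 0 T with hT | hT
    · rwa [abs_of_nonneg hT] at h5 ⊢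
    · have e : pl (cx (pnd δ T k)) g = 0 := by
        unfold PL.pl
        have e2 : ∀ j : ℤ, ‖cx (pnd δ T k) (lev j g)‖ = 0 := by
          intro j
          simp only [cx, pnd]
          rw [if_neg fun h => absurd (h.1.trans_lt hT) (not_lt.2 (abs_nonneg _))]
          simp
        simp only [e2, finsum_zero]
      rw [e]
      positivity

/-- products of families in one region -/
lemma AB_mul (hdl : Deloc) {b b' : Bool} {K : Set Pl} {F G : Fam} (hF : AB b K F) (hG : AB b' K G) :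
    AB (b || b') K (mulF F G) := by
  obtain ⟨⟨C, hC⟩, ⟨R, hR, h2⟩, h3⟩ := hF
  obtain ⟨⟨C', hC'⟩, ⟨R', hR', h2'⟩, h3'⟩ := hG
  have hC0 : ∀ᶠ δ in 𝓝[>] (0 : ℝ), ∀ h, ‖F δ h‖ ≤ |C| := hC.mono fun δ h g => (h g).trans (le_abs_self _)
  have hC0' : ∀ᶠ δ in 𝓝[>] (0 : ℝ), ∀ h, ‖G δ h‖ ≤ |C'| := hC'.mono fun δ h g => (h g).trans (le_abs_self _)
  have hr := h2.mul h2'
  refine ⟨⟨|C| * |C'|, ?_⟩, ⟨max R R', lt_max_of_lt_left hR, hr.mono ?_⟩, fun hb => ?_⟩
  · filter_upwards [hC0, hC0'] with δ g1 g2 h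
    show ‖F δ h * G δ h‖ ≤ _
    rw [norm_mul]
    exact mul_le_mul (g1 h) (g2 h) (norm_nonneg _) (abs_nonneg _)
  · rintro z (⟨hz, hz1, hz2⟩ | ⟨hz, hz1, hz2⟩)
    · exact ⟨hz, hz1.trans_le (le_max_left _ _), hz2.trans_le (le_max_left _ _)⟩
    · exact ⟨hz, hz1.trans_le (le_max_right _ _), hz2.trans_le (le_max_right _ _)⟩
  · cases b with
    | true =>
      refine UP.of_le hdl (h3 rfl) h2 hr (C := |C'|) ?_
      filter_upwards [hC0'] with δ g2 h
      show ‖F δ h * G δ h‖ ≤ _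
      rw [norm_mul, mul_comm]
      exact mul_le_mul_of_nonneg_right (g2 h) (norm_nonneg _)
    | false =>
      rw [Bool.false_or] at hb
      refine UP.of_le hdl (h3' hb) h2' hr (C := |C|) ?_
      filter_upwards [hC0] with δ g2 h
      show ‖F δ h * G δ h‖ ≤ _
      rw [norm_mul]
      exact mul_le_mul_of_nonneg_right (g2 h) (norm_nonneg _)

lemma AB_one (K : Set Pl) : AB false K (fun _ _ => 1) := by
  refine ⟨⟨1, Eventually.of_forall fun δ h => by simp⟩, ⟨1, one_pos, ?_⟩, fun h => by simp at h⟩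
  exact Eventually.of_forall fun δ => ⟨∅, fun _ _ _ => rfl, fun x hx => by simp at hx⟩

/-- finite products of families in one region -/
lemma AB_prod (hdl : Deloc) {ι : Type} (S : Finset ι) {K : Set Pl} {F : ι → Fam}
    (hF : ∀ a ∈ S, AB false K (F a)) : AB false K (fun δ h => ∏ a ∈ S, F a δ h) := by
  classical
  induction S using Finset.induction_on with
  | empty =>
    simp only [Finset.prod_empty]
    exact AB_one K
  | insert a S ha ih =>
    have h1 := AB_mul hdl (hF a (Finset.mem_insert_self a S))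
      (ih fun b hb => hF b (Finset.mem_insert_of_mem hb))
    have e : (fun δ h => ∏ b ∈ insert a S, F b δ h) = mulF (F a) (fun δ h => ∏ b ∈ S, F b δ h) := by
      funext δ h
      simp only [PL.mulF]
      rw [Finset.prod_insert ha]
    rw [e]
    exact h1

/-- the observable with vanishing defect as a family -/
noncomputable def Yf (c : ℝ) (g u : Pl → ℝ) : Fam :=
  fun δ => if 0 < δ then Yy c δ g u else fun _ => 0

lemma norm_Yy_le (c δ : ℝ) (g u : Pl → ℝ) (h : V → ℤ) : ‖Yy c δ g u h‖ ≤ 1 + |c| := by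
  unfold Yy
  refine (norm_sub_le _ _).trans ?_
  rw [norm_mul, norm_chr, norm_chr, Complex.norm_real, Real.norm_eq_abs, mul_one]

lemma ts_ab {K : Set Pl} {g u : Pl → ℝ} (hg : tsupport g ⊆ K) (hu : tsupport u ⊆ K) (p : ℝ) :
    tsupport (fun z => g z + p * lap u z) ⊆ K := by
  have h1 : tsupport (fun z => g z + p * lap u z) ⊆ tsupport g ∪ tsupport u := by
    refine closure_minimal ?_ ((isClosed_tsupport g).union (isClosed_tsupport u))
    intro z hz
    by_cases h2 : g z = 0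
    · right
      refine GF.tsupport_lap u (subset_tsupport _ fun h3 => hz ?_)
      simp only [h2, h3, mul_zero, add_zero]
    · exact Or.inl (subset_tsupport _ h2)
  exact h1.trans (Set.union_subset hg hu)

lemma Yf_AB {K : Set Pl} (hK : IsOpen K) (c : ℝ) {g u : Pl → ℝ} (hg : Cc g) (hu : Cc u)
    (hgK : tsupport g ⊆ K) (huK : tsupport u ⊆ K) : AB false K (Yf c g u) := by
  classical
  obtain ⟨R, hR, hR1⟩ := cc_bx (cc_ab hg hu 1)
  obtain ⟨R', hR', hR2⟩ := cc_bx (cc_ab hg hu 0)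
  refine ⟨⟨1 + |c|, Eventually.of_forall fun δ h => ?_⟩, ⟨max R R', lt_max_of_lt_left hR, ?_⟩, fun h => by simp at h⟩
  · unfold Yf
    split_ifs
    · exact norm_Yy_le c δ g u h
    · rw [norm_zero]
      positivity
  · have hpos : ∀ᶠ δ in 𝓝[>] (0 : ℝ), 0 < δ := self_mem_nhdsWithin
    have m1 := ms_sc (cc_ab hg hu 1) (hK.inter (bx_open 0 R)) (Set.subset_inter (ts_ab hgK huK 1) hR1)
    have m0 := ms_sc (cc_ab hg hu 0) (hK.inter (bx_open 0 R')) (Set.subset_inter (ts_ab hgK huK 0) hR2)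
    filter_upwards [hpos, m1, m0] with δ h1 h2 h3
    refine ⟨ms δ (fun z => g z + 1 * lap u z) ∪ ms δ (fun z => g z + 0 * lap u z), ?_, fun x hx => ?_⟩
    · intro h h' hh
      have a1 := chr_al h1 (cc_ab hg hu 1) h h' fun x hx => hh x (Finset.mem_union_left _ hx)
      have a0 := chr_al h1 (cc_ab hg hu 0) h h' fun x hx => hh x (Finset.mem_union_right _ hx)
      unfold Yf
      rw [if_pos h1]
      unfold Yy
      rw [a1, a0]
    · rcases Finset.mem_union.1 hx with hx | hx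
      · obtain ⟨g1, g2, g3⟩ := h2 x hx
        exact ⟨g1, g2.trans_le (le_max_left _ _), g3.trans_le (le_max_left _ _)⟩
      · obtain ⟨g1, g2, g3⟩ := h3 x hx
        exact ⟨g1, g2.trans_le (le_max_right _ _), g3.trans_le (le_max_right _ _)⟩

lemma Yf_phs (c : ℝ) {g u : Pl → ℝ} (hg : Cc g) (hu : Cc u) (δ : ℝ) : Phs (∫ z, g z) (Yf c g u δ) := by
  have hi : ∀ p : ℝ, ∫ z, (g z + p * lap u z) = ∫ z, g z := by
    intro p
    rw [integral_add hg.integrable ((hu.lap.smul p).integrable), integral_const_mul, hu.ne_lap.zero,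
      mul_zero, add_zero]
  intro k h
  unfold Yf
  split_ifs with hδ
  · have h1 := chr_phs hδ (cc_ab hg hu 1) k h
    have h0 := chr_phs hδ (cc_ab hg hu 0) k h
    rw [hi] at h1 h0
    unfold Yy
    rw [h1, h0]
    ring
  · simp

/-- the cut property of a weight -/
def CutP (hdl : Deloc) (l : Filter ℝ) (E : ℝ → (V → ℤ) → ℝ) (p q : Fin 6 → ℝ) : Prop :=
  ∀ (g u k₀ k₅ : Pl → ℝ) (f : Fin 6 → Pl → ℝ) (T : ℝ), Cc g → Cc u → (∀ i, Cc (f i)) → Cc k₀ → Cc k₅ →
    ∫ z, k₀ z = 1 → ∫ z, k₅ z = 1 → tsupport g ⊆ Qr p → tsupport u ⊆ Qr p →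
    (∀ i, tsupport (f i) ⊆ Rr p q i) → tsupport k₀ ⊆ Rr p q 0 → tsupport k₅ ⊆ Rr p q 5 →
    Tendsto (fun δ => ‖M (fun h => Yy (Real.exp (Kc hdl / 2 * (2 * (∫ z, g z * u z) - GF.dir u))) δ g u h *
      ((∏ i, chr δ (f i) h) * ((pnd δ T k₀ h * pnd δ T k₅ h : ℝ) : ℂ)) * (E δ h : ℂ))‖) l (𝓝 0)

/-- **The cut property of a product of six local weights.** -/
theorem cutP_prod (hdl : Deloc) {l : Filter ℝ} (hl : l ≤ 𝓝[>] 0) {E : ℝ → (V → ℤ) → ℝ} {p q : Fin 6 → ℝ}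
    (hpq : ∀ i, p i < q i) (e : Fin 6 → ℝ → (V → ℤ) → ℝ) (he : ∀ i, AB false (Rr p q i) (fun δ => cx (e i δ)))
    (hE : ∀ᶠ δ in l, ∀ h, E δ h = ∏ i, e i δ h) : CutP hdl l E p q := by
  intro g u k₀ k₅ f T hg hu hf hk₀ hk₅ i₀ i₅ sg su sf s₀ s₅
  set c := Real.exp (Kc hdl / 2 * (2 * (∫ z, g z * u z) - GF.dir u)) with hc
  have F : ∀ i, AB false (Rr p q i) (mulF (fun δ => cx (e i δ)) (fun δ => chr δ (f i))) := fun i =>
    AB_mul hdl (he i) (AB_chr (Rr_open p q i) (hf i) (sf i))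
  have F0 := AB_mul hdl (F 0) (AB_pnd hdl (Rr_open p q 0) hk₀ i₀ s₀ T)
  have F5 := AB_mul hdl (F 5) (AB_pnd hdl (Rr_open p q 5) hk₅ i₅ s₅ T)
  rw [Bool.false_or] at F0 F5
  have hY := Yf_AB (Qr_open p) c hg hu sg su
  set s : ℝ := (p 5 + q 5) / 2 with hs
  have hs1 : p 5 < s := by rw [hs]; linarith [hpq 5]
  have hs2 : s < q 5 := by rw [hs]; linarith [hpq 5]
  have hH : Tendsto (fun δ => ‖muP (PL.dbl (-1, -1) ⌊s / δ⌋ (Yf c g u δ))‖) (𝓝[>] 0) (𝓝 0) := by
    have h1 := defect_null hdl (d := (-1, -1)) (by simp [DirZ]) (s := s) hg hu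
      (fun z hz => (show LL 5 z < s from (sg hz 5).trans hs1))
      (fun z hz => (show LL 5 z < s from (su hz 5).trans hs1)) hc
    have hpos : ∀ᶠ δ in 𝓝[>] (0 : ℝ), 0 < δ := self_mem_nhdsWithin
    refine h1.congr' ?_
    filter_upwards [hpos] with δ hδ
    rw [PL.dbl_eq]
    unfold Yf
    rw [if_pos hδ]
  have key := PL.cuts_bdd hdl hY F0 (F 1) (F 2) (F 3) (F 4) F5 (a := p) (b := q) hpq hs1 hs2
    (fun z hz => hz.1)
    (by
      rintro z (((((hz | hz) | hz) | hz) | hz) | hz)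
      · exact hz 0
      all_goals exact hz.2 0 (by decide))
    (fun z hz => hz.1)
    (by
      rintro z ((((hz | hz) | hz) | hz) | hz)
      · exact hz 1
      all_goals exact hz.2 1 (by decide))
    (fun z hz => hz.1)
    (by
      rintro z (((hz | hz) | hz) | hz)
      · exact hz 2
      all_goals exact hz.2 2 (by decide))
    (fun z hz => hz.1)
    (by
      rintro z ((hz | hz) | hz)
      · exact hz 3
      all_goals exact hz.2 3 (by decide))
    (fun z hz => hz.1)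
    (by
      rintro z (hz | hz)
      · exact hz 4
      all_goals exact hz.2 4 (by decide))
    (fun z hz => hz.1) (fun z hz => hz 5) (φ := fun _ => ∫ z, g z) (fun δ => Yf_phs c hg hu δ) hH
  have hpos : ∀ᶠ δ in l, 0 < δ := hl self_mem_nhdsWithin
  refine (key.mono_left hl).congr' ?_
  filter_upwards [hpos, hE] with δ hδ h1
  congr 2
  funext h
  rw [h1 h]
  unfold Yf
  rw [if_pos hδ]
  simp only [PL.mulF, cx, Fin.prod_univ_six]
  push_cast
  ring

end DV
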