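import Pool.Agent.Helper83.DV.Sm

/-!
# Project DV, block PL3: the cut property for an arbitrary class of families

The weight is a product of six families `e i` such that the product of `e i` and every bounded family of the region `i` is in the
class, pinned for `i = 0` and `i = 5` if the bounded family is pinned.
-/

open MeasureTheory Filter Topology ComplexConjugate

namespace DV

open RP4 (V Om dom BdryPar Deloc mass)
open GF (Pl Cc ell lap Kc dir JJ)
open GF.Lat (Xd DirZ dr)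
open PL (Fam AB mulF Cls nrL)

/-- **The cut property for a class.** -/
theorem cutP_cls (hdl : Deloc) {l : Filter ℝ} (hl : l ≤ 𝓝[>] 0) {A : Bool → Set Pl → Fam → Prop}
    (hA : Cls M nrL A) (hAB : ∀ {K : Set Pl} {F : Fam}, AB false K F → A false K F)
    {E : ℝ → (V → ℤ) → ℝ} {p q : Fin 6 → ℝ} (hpq : ∀ i, p i < q i) (e : Fin 6 → Fam) (b : Fin 6 → Bool)
    (h0 : ∀ G, AB true (Rr p q 0) G → A true (Rr p q 0) (mulF (e 0) G))
    (h5 : ∀ G, AB true (Rr p q 5) G → A true (Rr p q 5) (mulF (e 5) G))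
    (hm : ∀ i, ∀ G, AB false (Rr p q i) G → A (b i) (Rr p q i) (mulF (e i) G))
    (hE : ∀ᶠ δ in l, ∀ h, (E δ h : ℂ) = ∏ i, e i δ h) : CutP hdl l E p q := by
  intro g u k₀ k₅ f T hg hu hf hk₀ hk₅ i₀ i₅ sg su sf s₀ s₅
  set c := Real.exp (Kc hdl / 2 * (2 * (∫ z, g z * u z) - GF.dir u)) with hc
  have C : ∀ i, AB false (Rr p q i) (fun δ => chr δ (f i)) := fun i => AB_chr (Rr_open p q i) (hf i) (sf i)
  have G0 := AB_mul hdl (C 0) (AB_pnd hdl (Rr_open p q 0) hk₀ i₀ s₀ T)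
  have G5 := AB_mul hdl (C 5) (AB_pnd hdl (Rr_open p q 5) hk₅ i₅ s₅ T)
  rw [Bool.false_or] at G0 G5
  have F0 := h0 _ G0
  have F5 := h5 _ G5
  have hY' := Yf_AB (Qr_open p) c hg hu sg su
  have hY := hAB hY'
  set s : ℝ := (p 5 + q 5) / 2 with hs
  have hs1 : p 5 < s := by rw [hs]; linarith [hpq 5]
  have hs2 : s < q 5 := by rw [hs]; linarith [hpq 5]
  have hH : Tendsto (fun δ => ‖muP (PL.dbl (-1, -1) ⌊s / δ⌋ (Yf c g u δ))‖) (𝓝[>] 0) (𝓝 0) := by
    have h1 := defect_null hdl (d := (-1, -1)) (by simp [DirZ]) (s := s) hg hu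
      (fun z hz => (show LL 5 z < s from (sg hz 5).trans hs1))
      (fun z hz => (show LL 5 z < s from (su hz 5).trans hs1)) hc
    have hpos : ∀ᶠ δ in 𝓝[>] (0 : ℝ), 0 < δ := self_mem_nhdsWithin
    refine h1.congr' ?_
    filter_upwards [hpos] with δ hδ
    rw [PL.dbl_eq]
    unfold Yf
    rw [if_pos hδ]
  have hN := PL.nul_of hdl (d := (-1, -1)) (by simp [DirZ]) hs1 (hA.reg hY)
    (fun z hz => (show LL 5 z < p 5 from hz 5)) (φ := fun _ => ∫ z, g z) (fun δ => Yf_phs c hg hu δ) hH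
  have key := PL.six_cuts (PL.rps hdl) hA hY F0 (hm 1 _ (C 1)) (hm 2 _ (C 2)) (hm 3 _ (C 3)) (hm 4 _ (C 4)) F5
    (a := p) (b := q) hpq hs1 hs2
    (fun z hz => hz.1)
    (by
      rintro z (((((hz | hz) | hz) | hz) | hz) | hz)
      · exact hz 0
      all_goals exact hz.2 0 (by decide))
    (fun z hz => hz.1)
    (by
      rintro z ((((hz | hz) | hz) | hz) | hz)
      · exact hz 1
      all_goals exact hz.2 1 (by decide))
    (fun z hz => hz.1)
    (by
      rintro z (((hz | hz) | hz) | hz)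
      · exact hz 2
      all_goals exact hz.2 2 (by decide))
    (fun z hz => hz.1)
    (by
      rintro z ((hz | hz) | hz)
      · exact hz 3
      all_goals exact hz.2 3 (by decide))
    (fun z hz => hz.1)
    (by
      rintro z (hz | hz)
      · exact hz 4
      all_goals exact hz.2 4 (by decide))
    (fun z hz => hz.1) (fun z hz => hz 5) hN
  have hpos : ∀ᶠ δ in l, 0 < δ := hl self_mem_nhdsWithin
  refine (key.mono_left hl).congr' ?_
  filter_upwards [hpos, hE] with δ hδ h1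
  congr 2
  funext h
  rw [h1 h]
  simp only [PL.mulF, Yf, if_pos hδ, cx, Fin.prod_univ_six]
  push_cast
  ring

/-- **The shift theorem for a class.** -/
theorem shift_cls (hdl : Deloc) {l : Filter ℝ} (hl : l ≤ 𝓝[>] 0) {E : ℝ → (V → ℤ) → ℝ} (hW : WDat l E)
    {m₀ : ℝ} (hm₀ : 0 < m₀) (hlow : ∀ᶠ δ in l, m₀ ≤ MR (E δ)) {s : Fin 6 → ℝ} {κ : ℝ} (hκ : 0 < κ)
    (hne : (Qr fun i => s i - κ).Nonempty) {A : Bool → Set Pl → Fam → Prop}
    (hA : Cls M nrL A) (hAB : ∀ {K : Set Pl} {F : Fam}, AB false K F → A false K F) (e : Fin 6 → Fam) (b : Fin 6 → Bool)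
    (h0 : ∀ K G, Rr (fun i => s i - κ) (fun i => s i + κ) 0 ⊆ K → AB true K G → A true K (mulF (e 0) G))
    (h5 : ∀ K G, Rr (fun i => s i - κ) (fun i => s i + κ) 5 ⊆ K → AB true K G → A true K (mulF (e 5) G))
    (hm : ∀ i K G, Rr (fun i => s i - κ) (fun i => s i + κ) i ⊆ K → AB false K G → A (b i) K (mulF (e i) G))
    (hE : ∀ᶠ δ in l, ∀ h, (E δ h : ℂ) = ∏ i, e i δ h)
    {u f : Pl → ℝ} (hu : Cc u) (hus : tsupport u ⊆ Qr fun i => s i - κ) (hf : Cc f) :
    Tendsto (fun δ => qt E (fun δ h => Real.cos (Xd δ (fun w => f w + lap u w) h)) δ -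
      Real.exp (Kc hdl / 2 * JJ f u) * qt E (fun δ h => Real.cos (Xd δ f h)) δ) l (𝓝 0) := by
  refine shift_main hdl hl hW hm₀ hlow hκ hne (fun p q h1 h2 h3 => ?_) hu hus hf
  have hR : ∀ i, Rr (fun i => s i - κ) (fun i => s i + κ) i ⊆ Rr p q i :=
    Rr_mono (fun i => (h1 i).le) (fun i => (h3 i).le)
  exact cutP_cls hdl hl hA hAB h2 e b (fun G hG => h0 _ G (hR 0) hG) (fun G hG => h5 _ G (hR 5) hG)
    (fun i G hG => hm i _ G (hR i) hG) hE

end DV
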