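import Pool.Agent.Helper34.GF.EF
import Pool.Agent.Helper27.GF.Cal1

/-!
# Project DV, block PL3: the Laplacian of a reflected function, energies
-/

open MeasureTheory Filter Topology

namespace DV

open GF

private lemma Lr_ns {d : Pl} (hd : Dir d) : d.1 ^ 2 + d.2 ^ 2 ≠ 0 := by
  rcases hd with rfl | rfl | rfl | rfl | rfl | rfl | rfl | rfl <;> norm_num

private lemma Lr_x (d : Pl) (s : ℝ) (z : Pl) :
    HasDerivAt (fun t : ℝ => refl d s (t, z.2))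
      (1 - 2 * d.1 ^ 2 / (d.1 ^ 2 + d.2 ^ 2), -(2 * d.1 * d.2 / (d.1 ^ 2 + d.2 ^ 2))) z.1 := by
  unfold GF.refl ell
  have h0 : HasDerivAt (fun t : ℝ => t) 1 z.1 := hasDerivAt_id z.1
  have h1 : HasDerivAt (fun t : ℝ => d.1 * t + d.2 * z.2 - s) (d.1 * 1) z.1 :=
    ((h0.const_mul d.1).add_const _).sub_const _
  have h2 : HasDerivAt (fun t : ℝ => t - 2 * (d.1 * t + d.2 * z.2 - s) / (d.1 ^ 2 + d.2 ^ 2) * d.1)
      (1 - 2 * (d.1 * 1) / (d.1 ^ 2 + d.2 ^ 2) * d.1) z.1 :=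
    h0.sub (((h1.const_mul 2).div_const _).mul_const _)
  have h3 : HasDerivAt (fun t : ℝ => z.2 - 2 * (d.1 * t + d.2 * z.2 - s) / (d.1 ^ 2 + d.2 ^ 2) * d.2)
      (-(2 * (d.1 * 1) / (d.1 ^ 2 + d.2 ^ 2) * d.2)) z.1 :=
    (((h1.const_mul 2).div_const _).mul_const _).const_sub _
  convert h2.prodMk h3 using 2 <;> ring

private lemma Lr_y (d : Pl) (s : ℝ) (z : Pl) :
    HasDerivAt (fun t : ℝ => refl d s (z.1, t))
      (-(2 * d.1 * d.2 / (d.1 ^ 2 + d.2 ^ 2)), 1 - 2 * d.2 ^ 2 / (d.1 ^ 2 + d.2 ^ 2)) z.2 := by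
  unfold GF.refl ell
  have h0 : HasDerivAt (fun t : ℝ => t) 1 z.2 := hasDerivAt_id z.2
  have h1 : HasDerivAt (fun t : ℝ => d.1 * z.1 + d.2 * t - s) (d.2 * 1) z.2 :=
    ((h0.const_mul d.2).const_add _).sub_const _
  have h2 : HasDerivAt (fun t : ℝ => t - 2 * (d.1 * z.1 + d.2 * t - s) / (d.1 ^ 2 + d.2 ^ 2) * d.2)
      (1 - 2 * (d.2 * 1) / (d.1 ^ 2 + d.2 ^ 2) * d.2) z.2 :=
    h0.sub (((h1.const_mul 2).div_const _).mul_const _)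
  have h3 : HasDerivAt (fun t : ℝ => z.1 - 2 * (d.1 * z.1 + d.2 * t - s) / (d.1 ^ 2 + d.2 ^ 2) * d.1)
      (-(2 * (d.2 * 1) / (d.1 ^ 2 + d.2 ^ 2) * d.1)) z.2 :=
    (((h1.const_mul 2).div_const _).mul_const _).const_sub _
  convert h3.prodMk h2 using 2 <;> ring

private lemma Lr_lin (f : Pl → ℝ) (w : Pl) (a b : ℝ) :
    fderiv ℝ f w (a, b) = a * dx f w + b * dy f w := by
  unfold dx dy
  have : ((a, b) : Pl) = a • ((1 : ℝ), (0 : ℝ)) + b • ((0 : ℝ), (1 : ℝ)) := by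
    ext <;> simp
  rw [this, map_add, map_smul, map_smul]
  simp

lemma dx_rf {d : Pl} (s : ℝ) {f : Pl → ℝ} (hf : ContDiff ℝ (⊤ : ℕ∞) f) (z : Pl) :
    dx (rf d s f) z = (1 - 2 * d.1 ^ 2 / (d.1 ^ 2 + d.2 ^ 2)) * rf d s (dx f) z +
      -(2 * d.1 * d.2 / (d.1 ^ 2 + d.2 ^ 2)) * rf d s (dy f) z := by
  have hs : ContDiff ℝ (⊤ : ℕ∞) (rf d s f) := hf.comp (smooth_refl d s)
  rw [dx_eq_deriv hs]
  have h1 := Lr_x d s z
  have h2 : HasFDerivAt f (fderiv ℝ f (refl d s z)) (refl d s z) :=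
    ((hf.differentiable (by simp)) _).hasFDerivAt
  have h3 : HasFDerivAt f (fderiv ℝ f (refl d s z)) (refl d s (z.1, z.2)) := h2
  have h4 := h3.comp_hasDerivAt z.1 h1
  rw [Lr_lin f] at h4
  exact h4.deriv

lemma dy_rf {d : Pl} (s : ℝ) {f : Pl → ℝ} (hf : ContDiff ℝ (⊤ : ℕ∞) f) (z : Pl) :
    dy (rf d s f) z = -(2 * d.1 * d.2 / (d.1 ^ 2 + d.2 ^ 2)) * rf d s (dx f) z +
      (1 - 2 * d.2 ^ 2 / (d.1 ^ 2 + d.2 ^ 2)) * rf d s (dy f) z := by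
  have hs : ContDiff ℝ (⊤ : ℕ∞) (rf d s f) := hf.comp (smooth_refl d s)
  rw [dy_eq_deriv hs]
  have h1 := Lr_y d s z
  have h2 : HasFDerivAt f (fderiv ℝ f (refl d s z)) (refl d s z) :=
    ((hf.differentiable (by simp)) _).hasFDerivAt
  have h3 : HasFDerivAt f (fderiv ℝ f (refl d s z)) (refl d s (z.1, z.2)) := h2
  have h4 := h3.comp_hasDerivAt z.2 h1
  rw [Lr_lin f] at h4
  exact h4.deriv

theorem lap_rf {d : Pl} (hd : Dir d) (s : ℝ) {f : Pl → ℝ} (hf : ContDiff ℝ (⊤ : ℕ∞) f) :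
    lap (rf d s f) = rf d s (lap f) := by
  have hn := Lr_ns hd
  have sx := smooth_dx hf
  have sy := smooth_dy hf
  have rx : ContDiff ℝ (⊤ : ℕ∞) (rf d s (dx f)) := sx.comp (smooth_refl d s)
  have ry : ContDiff ℝ (⊤ : ℕ∞) (rf d s (dy f)) := sy.comp (smooth_refl d s)
  have e1 : dx (rf d s f) = fun z => (1 - 2 * d.1 ^ 2 / (d.1 ^ 2 + d.2 ^ 2)) * rf d s (dx f) z +
      -(2 * d.1 * d.2 / (d.1 ^ 2 + d.2 ^ 2)) * rf d s (dy f) z := funext fun z => dx_rf s hf z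
  have e2 : dy (rf d s f) = fun z => -(2 * d.1 * d.2 / (d.1 ^ 2 + d.2 ^ 2)) * rf d s (dx f) z +
      (1 - 2 * d.2 ^ 2 / (d.1 ^ 2 + d.2 ^ 2)) * rf d s (dy f) z := funext fun z => dy_rf s hf z
  funext z
  unfold lap
  rw [e1, e2, dx_add (contDiff_const.mul rx) (contDiff_const.mul ry),
    dy_add (contDiff_const.mul rx) (contDiff_const.mul ry), dx_smul _ rx, dx_smul _ ry, dy_smul _ rx,
    dy_smul _ ry, dx_rf s sx, dx_rf s sy, dy_rf s sx, dy_rf s sy]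
  have e3 : rf d s (fun z => dx (dx f) z + dy (dy f) z) z = rf d s (dx (dx f)) z + rf d s (dy (dy f)) z := rfl
  have e4 : rf d s (dy (dx f)) z = rf d s (dx (dy f)) z := by
    unfold rf
    rw [dx_dy_comm hf]
  rw [e3, e4]
  field_simp
  ring

end DV
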