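import Pool.Agent.Helper83.DV.Gm
import Pool.Agent.Helper83.DV.Lr
import Pool.Agent.Helper75.GF.L5a
import Pool.Agent.Helper41.DV.E1

/-!
# Project DV, block PL3: the observable with vanishing defect

`Yy c δ g u = e(g) (e(lap u) - c)`.  Across a line beyond the supports of `g` and `u`, with
`c = exp (K / 2 * (2 ∫ g u - dir u))`, the mean of `Y` times its conjugate mirror image tends to zero.
-/

open MeasureTheory Filter Topology

namespace DV

open RP4 (V Om dom avg mu Loc Deloc mass)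
open GF (Pl Cc Ne lap rf refl ell Dir energy2 Kc dir)
open GF.Lat (ld DirZ lref Xd win dr cc_box Chg)

/-- the observable with vanishing defect -/
noncomputable def Yy (c δ : ℝ) (g u : Pl → ℝ) : (V → ℤ) → ℂ :=
  fun h => chr δ (fun z => g z + 1 * lap u z) h - (c : ℂ) * chr δ (fun z => g z + 0 * lap u z) h

lemma chr_congr {δ : ℝ} {f g : Pl → ℝ} (h : ∀ z, f z = g z) : chr δ f = chr δ g := by
  rw [show f = g from funext h]

lemma cc_ab {g u : Pl → ℝ} (hg : Cc g) (hu : Cc u) (p : ℝ) : Cc (fun z => g z + p * lap u z) :=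
  hg.add ((hu.lap).smul p)

/-- a character times the conjugate of a reflected character -/
lemma chr_mul_conj_rfo {d : ℤ × ℤ} (hd : DirZ d) {δ : ℝ} (hδ : 0 < δ) (m : ℤ) {a b : Pl → ℝ}
    (ha : Cc a) (hb : Cc b) (h : V → ℤ) :
    chr δ a h * (starRingEnd ℂ) (rfo d m (chr δ b) h) =
      chr δ (fun z => a z - rf (dr d) (δ * m) b z) h := by
  rw [chr_rfo hd hδ, chr_conj]
  have hb' : Cc (fun z => -rf (dr d) (δ * m) b z) := (GF.Lat.cc_rf hd _ hb).neg
  rw [← chr_add hδ ha hb']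
  congr 1

/-- the expansion of the doubled observable -/
lemma rpr_Yy {d : ℤ × ℤ} (hd : DirZ d) {δ : ℝ} (hδ : 0 < δ) (m : ℤ) (c : ℝ) {g u : Pl → ℝ}
    (hg : Cc g) (hu : Cc u) (h : V → ℤ) :
    rpr d m (Yy c δ g u) (Yy c δ g u) h =
      (chr δ (fun z => (g z + 1 * lap u z) - rf (dr d) (δ * m) (fun w => g w + 1 * lap u w) z) h +
        (-(c : ℂ)) * chr δ (fun z => (g z + 0 * lap u z) - rf (dr d) (δ * m) (fun w => g w + 1 * lap u w) z) h) +
      ((-(c : ℂ)) * chr δ (fun z => (g z + 1 * lap u z) - rf (dr d) (δ * m) (fun w => g w + 0 * lap u w) z) h +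
        ((c : ℂ) ^ 2) * chr δ (fun z => (g z + 0 * lap u z) - rf (dr d) (δ * m) (fun w => g w + 0 * lap u w) z) h) := by
  have h1 := cc_ab hg hu 1
  have h0 := cc_ab hg hu 0
  rw [← chr_mul_conj_rfo hd hδ m h1 h1, ← chr_mul_conj_rfo hd hδ m h0 h1,
    ← chr_mul_conj_rfo hd hδ m h1 h0, ← chr_mul_conj_rfo hd hδ m h0 h0]
  unfold rpr Yy
  have e : rfo d m (fun h => chr δ (fun z => g z + 1 * lap u z) h - (c : ℂ) * chr δ (fun z => g z + 0 * lap u z) h) h =
      rfo d m (chr δ (fun z => g z + 1 * lap u z)) h - (c : ℂ) * rfo d m (chr δ (fun z => g z + 0 * lap u z)) h := rfl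
  rw [e, map_sub, map_mul, Complex.conj_ofReal]
  ring

/-- the limit of one term -/
lemma muP_one (hdl : Deloc) {d : ℤ × ℤ} (hd : DirZ d) (s : ℝ) {a b : Pl → ℝ} (ha : Cc a) (hb : Cc b)
    (hab : ∫ z, a z = ∫ z, b z) :
    Tendsto (fun δ : ℝ => muP (chr δ (fun z => a z - rf (dr d) (δ * (⌊s / δ⌋ : ℤ)) b z))) (𝓝[>] (0 : ℝ))
      (𝓝 (Real.exp (-(Kc hdl * energy2 (fun z => a z - rf (dr d) s b z) (fun z => a z - rf (dr d) s b z) / 2)) : ℂ)) := by
  obtain ⟨R₁, hR₁, h₁⟩ := cc_box ha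
  obtain ⟨R₂, hR₂, h₂⟩ := GF.Lat.supp_rf hd s hb
  obtain ⟨B, hB0, hB⟩ := GF.Lat.int_abs_rf_sub hd s hb
  have hF : Ne (fun z => a z - rf (dr d) s b z) := by
    refine ⟨ha.sub (GF.Lat.cc_rf hd s hb), ?_⟩
    rw [integral_sub ha.integrable (GF.Lat.cc_rf hd s hb).integrable, GF.Lat.int_rf hd, hab, sub_self]
  have hpos : ∀ᶠ δ in 𝓝[>] (0 : ℝ), 0 < δ := self_mem_nhdsWithin
  have hlt : ∀ᶠ δ in 𝓝[>] (0 : ℝ), δ < 1 :=
    (eventually_lt_nhds (a := (0 : ℝ)) (b := 1) one_pos).filter_mono nhdsWithin_le_nhds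
  have hs : ∀ δ : ℝ, 0 < δ → |δ * ((⌊s / δ⌋ : ℤ) : ℝ) - s| ≤ δ := by
    intro δ hδ
    have h1 := Int.floor_le (s / δ)
    have h2 := Int.lt_floor_add_one (s / δ)
    have h3 : δ * ((⌊s / δ⌋ : ℤ) : ℝ) ≤ s := by
      calc δ * ((⌊s / δ⌋ : ℤ) : ℝ) ≤ δ * (s / δ) := mul_le_mul_of_nonneg_left h1 hδ.le
        _ = s := mul_div_cancel₀ _ hδ.ne'
    have h4 : s ≤ δ * ((⌊s / δ⌋ : ℤ) : ℝ) + δ := by
      calc s = δ * (s / δ) := (mul_div_cancel₀ _ hδ.ne').symm
        _ ≤ δ * (((⌊s / δ⌋ : ℤ) : ℝ) + 1) := mul_le_mul_of_nonneg_left h2.le hδ.le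
        _ = _ := by ring
    rw [abs_le]
    constructor <;> linarith
  refine muP_chr_tendsto hdl hF (R := max R₁ R₂) (lt_max_of_lt_left hR₁)
    (F := fun δ z => a z - rf (dr d) (δ * (⌊s / δ⌋ : ℤ)) b z) ⟨?_, ?_, ?_⟩ B ?_
  · exact Eventually.of_forall fun δ => ha.integrable.sub (GF.Lat.cc_rf hd _ hb).integrable
  · refine Eventually.of_forall fun δ => ?_
    rw [integral_sub ha.integrable (GF.Lat.cc_rf hd _ hb).integrable, GF.Lat.int_rf hd, hab, sub_self]
  · filter_upwards [hpos, hlt] with δ h3 h4 z hz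
    by_cases haz : a z = 0
    · have hz' : rf (dr d) (δ * (⌊s / δ⌋ : ℤ)) b z ≠ 0 := fun hc => hz (by rw [haz, hc, sub_zero])
      obtain ⟨g1, g2⟩ := h₂ _ ((hs δ h3).trans h4.le) z hz'
      exact ⟨g1.trans (le_max_right _ _), g2.trans (le_max_right _ _)⟩
    · obtain ⟨g1, g2⟩ := h₁ z haz
      exact ⟨g1.trans (le_max_left _ _), g2.trans (le_max_left _ _)⟩
  · filter_upwards [hpos, hlt] with δ h3 h4
    have h5 := hB _ ((hs δ h3).trans h4.le)
    have e : ∀ z, (a z - rf (dr d) (δ * (⌊s / δ⌋ : ℤ)) b z) - (a z - rf (dr d) s b z) =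
        rf (dr d) s b z - rf (dr d) (δ * (⌊s / δ⌋ : ℤ)) b z := fun z => by ring
    simp only [e]
    refine h5.trans ?_
    exact mul_le_mul_of_nonneg_left (hs δ h3) hB0

/-- disjoint supports: a function behind the line times a reflected function behind the line -/
lemma mul_rf_zero {d : ℤ × ℤ} (hd : DirZ d) {s : ℝ} {a b : Pl → ℝ}
    (ha : tsupport a ⊆ {z | ell (dr d) z < s}) (hb : tsupport b ⊆ {z | ell (dr d) z < s}) (z : Pl) :
    a z * rf (dr d) s b z = 0 := by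
  by_contra hc
  obtain ⟨h1, h2⟩ := mul_ne_zero_iff.1 hc
  have h3 : ell (dr d) z < s := ha (subset_tsupport a h1)
  have h4 : ell (dr d) (refl (dr d) s z) < s := hb (subset_tsupport b h2)
  rw [GF.ell_refl (GF.Lat.dr_dir hd)] at h4
  linarith

/-- the energies of the four charges -/
lemma energy_pq {d : ℤ × ℤ} (hd : DirZ d) {s : ℝ} {g u : Pl → ℝ} (hg : Cc g) (hu : Cc u)
    (hgs : tsupport g ⊆ {z | ell (dr d) z < s}) (hus : tsupport u ⊆ {z | ell (dr d) z < s}) (p q : ℝ) :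
    energy2 (fun z => (g z + p * lap u z) - rf (dr d) s (fun w => g w + q * lap u w) z)
        (fun z => (g z + p * lap u z) - rf (dr d) s (fun w => g w + q * lap u w) z) =
      energy2 (fun z => g z - rf (dr d) s g z) (fun z => g z - rf (dr d) s g z) +
        ((p ^ 2 + q ^ 2) * dir u - 2 * (p + q) * ∫ z, g z * u z) := by
  have E := GF.energyFacts
  have hru : Cc (rf (dr d) s u) := GF.Lat.cc_rf hd s hu
  have hrg : Cc (rf (dr d) s g) := GF.Lat.cc_rf hd s hg
  set G : Pl → ℝ := fun z => g z - rf (dr d) s g z with hG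
  set v : Pl → ℝ := fun z => p * u z + (-q) * rf (dr d) s u z with hv
  have cG : Cc G := hg.sub hrg
  have cv : Cc v := (hu.smul p).add (hru.smul (-q))
  have lv : lap v = fun z => p * lap u z + (-q) * rf (dr d) s (lap u) z := by
    rw [hv, E.lap_add _ _ (hu.smul p) (hru.smul (-q)), E.lap_smul _ _ hu, E.lap_smul _ _ hru,
      lap_rf (GF.Lat.dr_dir hd) s hu.smooth]
  have e1 : (fun z => (g z + p * lap u z) - rf (dr d) s (fun w => g w + q * lap u w) z) =
      fun z => G z + lap v z := by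
    funext z
    rw [lv, hG]
    simp only [rf]
    ring
  have clv : Cc (lap v) := cv.lap
  have e2 : energy2 (fun z => G z + lap v z) (fun z => G z + lap v z) =
      energy2 G G + 2 * energy2 (lap v) G + energy2 (lap v) (lap v) := by
    rw [E.add _ _ _ cG clv (cG.add clv), E.symm G _ cG (cG.add clv), E.symm (lap v) _ clv (cG.add clv),
      E.add _ _ _ cG clv cG, E.add _ _ _ cG clv clv, E.symm G (lap v) cG clv]
    ring
  rw [e1, e2, E.lapl v G cv cG, E.lapl v (lap v) cv clv]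
  have hlu : tsupport (lap u) ⊆ {z | ell (dr d) z < s} := (GF.tsupport_lap u).trans hus
  have i1 : Integrable (fun z => g z * u z) := (hg.mul hu.smooth).integrable
  have i2 : Integrable (fun z => rf (dr d) s g z * rf (dr d) s u z) := (hrg.mul hru.smooth).integrable
  have i3 : Integrable (fun z => u z * lap u z) := (hu.mul hu.lap.smooth).integrable
  have i4 : Integrable (fun z => rf (dr d) s u z * rf (dr d) s (lap u) z) :=
    (hru.mul (GF.Lat.cc_rf hd s hu.lap).smooth).integrable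
  have j2 : ∫ z, rf (dr d) s g z * rf (dr d) s u z = ∫ z, g z * u z :=
    GF.Lat.int_rf hd s (fun z => g z * u z)
  have j4 : ∫ z, rf (dr d) s u z * rf (dr d) s (lap u) z = ∫ z, u z * lap u z :=
    GF.Lat.int_rf hd s (fun z => u z * lap u z)
  have e3 : ∫ z, v z * G z = (p + q) * ∫ z, g z * u z := by
    have e4 : ∀ z, v z * G z = p * (g z * u z) + q * (rf (dr d) s g z * rf (dr d) s u z) := by
      intro z
      have z1 := mul_rf_zero hd hus hgs z
      have z2 := mul_rf_zero hd hgs hus z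
      simp only [hv, hG]
      linear_combination (-p) * z1 - q * z2
    simp only [e4]
    rw [integral_add (i1.const_mul p) (i2.const_mul q), integral_const_mul, integral_const_mul, j2]
    ring
  have e5 : ∫ z, v z * lap v z = (p ^ 2 + q ^ 2) * ∫ z, u z * lap u z := by
    have e6 : ∀ z, v z * lap v z = p ^ 2 * (u z * lap u z) +
        q ^ 2 * (rf (dr d) s u z * rf (dr d) s (lap u) z) := by
      intro z
      have z1 := mul_rf_zero hd hus hlu z
      have z2 := mul_rf_zero hd hlu hus z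
      rw [lv]
      simp only [hv]
      linear_combination (-(p * q)) * z1 - (p * q) * z2
    simp only [e6]
    rw [integral_add (i3.const_mul _) (i4.const_mul _), integral_const_mul, integral_const_mul, j4]
    ring
  rw [e3, e5, GF.dir_eq hu]
  ring

/-- **The defect vanishes.** -/
theorem defect_null (hdl : Deloc) {d : ℤ × ℤ} (hd : DirZ d) {s : ℝ} {g u : Pl → ℝ} (hg : Cc g) (hu : Cc u)
    (hgs : tsupport g ⊆ {z | ell (dr d) z < s}) (hus : tsupport u ⊆ {z | ell (dr d) z < s}) {c : ℝ}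
    (hc : c = Real.exp (Kc hdl / 2 * (2 * (∫ z, g z * u z) - dir u))) :
    Tendsto (fun δ : ℝ => ‖muP (rpr d ⌊s / δ⌋ (Yy c δ g u) (Yy c δ g u))‖) (𝓝[>] (0 : ℝ)) (𝓝 0) := by
  have h1 := cc_ab hg hu 1
  have h0 := cc_ab hg hu 0
  have hi : ∀ p : ℝ, ∫ z, (g z + p * lap u z) = ∫ z, g z := by
    intro p
    rw [integral_add hg.integrable ((hu.lap.smul p).integrable), integral_const_mul, hu.ne_lap.zero,
      mul_zero, add_zero]
  have key : ∀ p q : ℝ, Tendsto (fun δ : ℝ => muP (chr δ (fun z => (g z + p * lap u z) -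
      rf (dr d) (δ * (⌊s / δ⌋ : ℤ)) (fun w => g w + q * lap u w) z))) (𝓝[>] (0 : ℝ))
      (𝓝 (Real.exp (-(Kc hdl * (energy2 (fun z => g z - rf (dr d) s g z) (fun z => g z - rf (dr d) s g z) +
        ((p ^ 2 + q ^ 2) * dir u - 2 * (p + q) * ∫ z, g z * u z)) / 2)) : ℂ)) := by
    intro p q
    have h2 := muP_one hdl hd s (cc_ab hg hu p) (cc_ab hg hu q) ((hi p).trans (hi q).symm)
    rw [energy_pq hd hg hu hgs hus p q] at h2
    exact h2
  have t := (((key 1 1).add ((key 0 1).const_mul (-(c : ℂ)))).add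
    (((key 1 0).const_mul (-(c : ℂ))).add ((key 0 0).const_mul ((c : ℂ) ^ 2))))
  have hpos : ∀ᶠ δ in 𝓝[>] (0 : ℝ), 0 < δ := self_mem_nhdsWithin
  have hval : (Real.exp (-(Kc hdl * (energy2 (fun z => g z - rf (dr d) s g z) (fun z => g z - rf (dr d) s g z) +
        ((1 ^ 2 + 1 ^ 2) * dir u - 2 * (1 + 1) * ∫ z, g z * u z)) / 2)) : ℂ) +
      -(c : ℂ) * (Real.exp (-(Kc hdl * (energy2 (fun z => g z - rf (dr d) s g z) (fun z => g z - rf (dr d) s g z) +
        ((0 ^ 2 + 1 ^ 2) * dir u - 2 * (0 + 1) * ∫ z, g z * u z)) / 2)) : ℂ) +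
      (-(c : ℂ) * (Real.exp (-(Kc hdl * (energy2 (fun z => g z - rf (dr d) s g z) (fun z => g z - rf (dr d) s g z) +
        ((1 ^ 2 + 0 ^ 2) * dir u - 2 * (1 + 0) * ∫ z, g z * u z)) / 2)) : ℂ) +
        (c : ℂ) ^ 2 * (Real.exp (-(Kc hdl * (energy2 (fun z => g z - rf (dr d) s g z) (fun z => g z - rf (dr d) s g z) +
        ((0 ^ 2 + 0 ^ 2) * dir u - 2 * (0 + 0) * ∫ z, g z * u z)) / 2)) : ℂ)) = 0 := by
    set A := energy2 (fun z => g z - rf (dr d) s g z) (fun z => g z - rf (dr d) s g z)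
    set I := ∫ z, g z * u z
    set D := dir u
    set K := Kc hdl
    have x1 : Real.exp (-(K * (A + ((1 ^ 2 + 1 ^ 2) * D - 2 * (1 + 1) * I)) / 2)) = c ^ 2 * Real.exp (-(K * A / 2)) := by
      rw [hc, ← Real.exp_nat_mul, ← Real.exp_add]
      congr 1
      push_cast
      ring
    have x2 : Real.exp (-(K * (A + ((0 ^ 2 + 1 ^ 2) * D - 2 * (0 + 1) * I)) / 2)) = c * Real.exp (-(K * A / 2)) := by
      rw [hc, ← Real.exp_add]
      congr 1
      ring
    have x3 : Real.exp (-(K * (A + ((1 ^ 2 + 0 ^ 2) * D - 2 * (1 + 0) * I)) / 2)) = c * Real.exp (-(K * A / 2)) := by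
      rw [hc, ← Real.exp_add]
      congr 1
      ring
    have x4 : Real.exp (-(K * (A + ((0 ^ 2 + 0 ^ 2) * D - 2 * (0 + 0) * I)) / 2)) = Real.exp (-(K * A / 2)) := by
      congr 1
      ring
    rw [x1, x2, x3, x4]
    push_cast
    ring
  rw [hval] at t
  have t' := t.norm
  rw [norm_zero] at t'
  refine t'.congr' ?_
  filter_upwards [hpos] with δ hδ
  congr 1
  set m : ℤ := ⌊s / δ⌋ with hm
  -- the four characters are local and level invariant
  have ccd : ∀ p q : ℝ, Cc (fun z => (g z + p * lap u z) - rf (dr d) (δ * m) (fun w => g w + q * lap u w) z) :=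
    fun p q => (cc_ab hg hu p).sub (GF.Lat.cc_rf hd _ (cc_ab hg hu q))
  have i0 : ∀ p q : ℝ, ∫ z, ((g z + p * lap u z) - rf (dr d) (δ * m) (fun w => g w + q * lap u w) z) = 0 := by
    intro p q
    rw [integral_sub (cc_ab hg hu p).integrable (GF.Lat.cc_rf hd _ (cc_ab hg hu q)).integrable,
      GF.Lat.int_rf hd, hi, hi, sub_self]
  have ph : ∀ p q : ℝ, Phs 0 (chr δ (fun z => (g z + p * lap u z) - rf (dr d) (δ * m) (fun w => g w + q * lap u w) z)) := by
    intro p q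
    have := chr_phs hδ (ccd p q)
    rwa [i0 p q] at this
  set S := ms δ (fun z => (g z + 1 * lap u z) - rf (dr d) (δ * m) (fun w => g w + 1 * lap u w) z) ∪
    ms δ (fun z => (g z + 0 * lap u z) - rf (dr d) (δ * m) (fun w => g w + 1 * lap u w) z) ∪
    (ms δ (fun z => (g z + 1 * lap u z) - rf (dr d) (δ * m) (fun w => g w + 0 * lap u w) z) ∪
    ms δ (fun z => (g z + 0 * lap u z) - rf (dr d) (δ * m) (fun w => g w + 0 * lap u w) z)) with hS
  have a11 : AL S (chr δ (fun z => (g z + 1 * lap u z) - rf (dr d) (δ * m) (fun w => g w + 1 * lap u w) z)) :=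
    (chr_al hδ (ccd 1 1)).mono (by intro x hx; simp only [hS, Finset.mem_union]; tauto)
  have a01 : AL S (chr δ (fun z => (g z + 0 * lap u z) - rf (dr d) (δ * m) (fun w => g w + 1 * lap u w) z)) :=
    (chr_al hδ (ccd 0 1)).mono (by intro x hx; simp only [hS, Finset.mem_union]; tauto)
  have a10 : AL S (chr δ (fun z => (g z + 1 * lap u z) - rf (dr d) (δ * m) (fun w => g w + 0 * lap u w) z)) :=
    (chr_al hδ (ccd 1 0)).mono (by intro x hx; simp only [hS, Finset.mem_union]; tauto)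
  have a00 : AL S (chr δ (fun z => (g z + 0 * lap u z) - rf (dr d) (δ * m) (fun w => g w + 0 * lap u w) z)) :=
    (chr_al hδ (ccd 0 0)).mono (by intro x hx; simp only [hS, Finset.mem_union]; tauto)
  have psm : ∀ (k : ℂ) {F : (V → ℤ) → ℂ}, Phs 0 F → Phs 0 (fun h => k * F h) := by
    intro k F hF j h
    have := hF j h
    simp only [this]
    ring
  have pad : ∀ {F F' : (V → ℤ) → ℂ}, Phs 0 F → Phs 0 F' → Phs 0 (fun h => F h + F' h) := by
    intro F F' hF hF' j h
    have h1 := hF j h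
    have h2 := hF' j h
    simp only [h1, h2]
    ring
  have e1 : rpr d m (Yy c δ g u) (Yy c δ g u) = fun h =>
      (chr δ (fun z => (g z + 1 * lap u z) - rf (dr d) (δ * m) (fun w => g w + 1 * lap u w) z) h +
        (-(c : ℂ)) * chr δ (fun z => (g z + 0 * lap u z) - rf (dr d) (δ * m) (fun w => g w + 1 * lap u w) z) h) +
      ((-(c : ℂ)) * chr δ (fun z => (g z + 1 * lap u z) - rf (dr d) (δ * m) (fun w => g w + 0 * lap u w) z) h +
        ((c : ℂ) ^ 2) * chr δ (fun z => (g z + 0 * lap u z) - rf (dr d) (δ * m) (fun w => g w + 0 * lap u w) z) h) :=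
    funext fun h => rpr_Yy hd hδ m c hg hu h
  rw [e1, muP_add hdl (a11.add (a01.comp fun z => -(c : ℂ) * z)) (pad (ph 1 1) (psm _ (ph 0 1)))
      ((a10.comp fun z => -(c : ℂ) * z).add (a00.comp fun z => (c : ℂ) ^ 2 * z)) (pad (psm _ (ph 1 0)) (psm _ (ph 0 0))),
    muP_add hdl a11 (ph 1 1) (a01.comp fun z => -(c : ℂ) * z) (psm _ (ph 0 1)),
    muP_add hdl (a10.comp fun z => -(c : ℂ) * z) (psm _ (ph 1 0)) (a00.comp fun z => (c : ℂ) ^ 2 * z) (psm _ (ph 0 0)),
    muP_smul hdl a01 (ph 0 1), muP_smul hdl a10 (ph 1 0), muP_smul hdl a00 (ph 0 0)]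

end DV
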