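import Pool.Agent.Helper33.DV.Ps
import Pool.Agent.Helper83.DV.Ch

/-!
# Project DV, block PL3: second moments of the field under an even weight
-/

open MeasureTheory Filter Topology

namespace DV

open RP4 (V Om dom BdryPar Deloc mass)
open GF (Pl Cc)
open GF.Lat (Xd win cc_box)

/-- the weighted sums over the configurations tend to the floating measure -/
lemma cf_tendsto (hd : Deloc) {s t : Finset V} {e F : (V → ℤ) → ℝ} (he : Pn s (cx e)) (hF : AL t (cx F)) :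
    Tendsto (fun D => (∑ g ∈ Cf e D, F g * e g) / (Om D).card) dom (𝓝 (MR (fun h => F h * e h))) := by
  refine (MR_tendsto hd (Pn.mulR hF he)).congr fun D => ?_
  rw [sum_Cf he D F]

lemma al_add {t : Finset V} {F G : (V → ℤ) → ℝ} (hF : AL t (cx F)) (hG : AL t (cx G)) :
    AL t (cx fun h => F h + G h) := by
  intro h h' hh
  have h1 := hF h h' hh
  have h2 := hG h h' hh
  simp only [cx, Complex.ofReal_inj] at h1 h2 ⊢
  rw [h1, h2]

lemma al_comp {t : Finset V} {F : (V → ℤ) → ℝ} (hF : AL t (cx F)) (φ : ℝ → ℝ) :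
    AL t (cx fun h => φ (F h)) := by
  intro h h' hh
  have h1 := hF h h' hh
  simp only [cx, Complex.ofReal_inj] at h1 ⊢
  rw [h1]

lemma al_X {δ : ℝ} (hδ : 0 < δ) {f : Pl → ℝ} (hf : Cc f) (φ : ℝ → ℝ) :
    AL (ms δ f) (cx fun h => φ (Xd δ f h)) := by
  intro h h' hh
  simp only [cx, Complex.ofReal_inj]
  rw [Xd_al hδ hf h h' hh]

/-- a quadratic form with nonnegative coefficients is monotone -/
lemma quad_le {ι : Type} (T : Finset ι) (S : Finset V) (m : ι → V → ℝ) (M : V → ℝ) (C : V → V → ℝ)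
    (hC : ∀ x y, 0 ≤ C x y) (h : ∀ x ∈ S, ∑ k ∈ T, |m k x| ≤ M x) :
    ∑ k ∈ T, ∑ x ∈ S, ∑ y ∈ S, m k x * m k y * C x y ≤ ∑ x ∈ S, ∑ y ∈ S, M x * M y * C x y := by
  rw [Finset.sum_comm]
  refine Finset.sum_le_sum fun x hx => ?_
  rw [Finset.sum_comm]
  refine Finset.sum_le_sum fun y hy => ?_
  rw [← Finset.sum_mul]
  refine mul_le_mul_of_nonneg_right ?_ (hC x y)
  have h1 : ∑ k ∈ T, m k x * m k y ≤ ∑ k ∈ T, |m k x| * |m k y| :=
    Finset.sum_le_sum fun k _ => by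
      rw [← abs_mul]
      exact le_abs_self _
  have h2 : ∑ k ∈ T, |m k x| * |m k y| ≤ (∑ k ∈ T, |m k x|) * ∑ k ∈ T, |m k y| := by
    rw [Finset.sum_mul]
    refine Finset.sum_le_sum fun k hk => ?_
    exact mul_le_mul_of_nonneg_left
      (Finset.single_le_sum (f := fun k => |m k y|) (fun j _ => abs_nonneg _) hk) (abs_nonneg _)
  have h3 : 0 ≤ ∑ k ∈ T, |m k y| := Finset.sum_nonneg fun k _ => abs_nonneg _
  have h4 : 0 ≤ ∑ k ∈ T, |m k x| := Finset.sum_nonneg fun k _ => abs_nonneg _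
  exact (h1.trans h2).trans (mul_le_mul (h x hx) (h y hy) h3 (h4.trans (h x hx)))

/-- expansion of the weighted sum of the square of a linear form -/
lemma quad_expand (G : Finset (V → ℤ)) (e : (V → ℤ) → ℝ) (S : Finset V) (m : V → ℝ) :
    ∑ g ∈ G, (∑ x ∈ S, m x * (g x : ℝ)) ^ 2 * e g =
      ∑ x ∈ S, ∑ y ∈ S, m x * m y * ∑ g ∈ G, ((g x : ℝ) * (g y : ℝ)) * e g := by
  have h1 : ∀ g ∈ G, (∑ x ∈ S, m x * (g x : ℝ)) ^ 2 * e g =
      ∑ x ∈ S, ∑ y ∈ S, m x * m y * (((g x : ℝ) * (g y : ℝ)) * e g) := by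
    intro g _
    rw [sq, Finset.sum_mul_sum, Finset.sum_mul]
    refine Finset.sum_congr rfl fun x _ => ?_
    rw [Finset.sum_mul]
    refine Finset.sum_congr rfl fun y _ => ?_
    ring
  rw [Finset.sum_congr rfl h1, Finset.sum_comm]
  refine Finset.sum_congr rfl fun x _ => ?_
  rw [Finset.sum_comm]
  refine Finset.sum_congr rfl fun y _ => ?_
  rw [Finset.mul_sum]

lemma mass_abs_le (δ : ℝ) {f : Pl → ℝ} (x : V) : |mass δ f x| ≤ mass δ (fun z => |f z|) x := by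
  unfold RP4.mass
  exact abs_integral_le_integral_abs

/-- **The second moments of small pieces.** -/
theorem mom_pieces (hd : Deloc) {s : Finset V} {e : (V → ℤ) → ℝ} (he : Pn s (cx e)) (he0 : ∀ g, 0 ≤ e g)
    (hea : ∀ g g' : V → ℤ, (∀ v, |g v| = |g' v|) → e g = e g') {δ : ℝ} (hδ : 0 < δ) {N : ℕ}
    {r : Fin N → Pl → ℝ} {F : Pl → ℝ} (hr : ∀ k, Cc (r k)) (hF : Cc F) (h : ∀ z, ∑ k, |r k z| ≤ F z) :
    ∑ k, MR (fun h => Xd δ (r k) h ^ 2 * e h) ≤ MR (fun h => Xd δ F h ^ 2 * e h) := by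
  classical
  have hne := RP4.dom_neBot
  obtain ⟨R, hR, hFR⟩ := cc_box hF
  have hrR : ∀ k z, r k z ≠ 0 → |z.1| ≤ R ∧ |z.2| ≤ R := by
    intro k z hz
    refine hFR z fun hc => hz ?_
    have h1 := h z
    rw [hc] at h1
    have h2 : |r k z| ≤ ∑ k, |r k z| :=
      Finset.single_le_sum (f := fun k => |r k z|) (fun j _ => abs_nonneg _) (Finset.mem_univ k)
    exact abs_eq_zero.1 (le_antisymm (h2.trans h1) (abs_nonneg _))
  have t1 : Tendsto (fun D => ∑ k, (∑ g ∈ Cf e D, Xd δ (r k) g ^ 2 * e g) / (Om D).card) dom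
      (𝓝 (∑ k, MR (fun h => Xd δ (r k) h ^ 2 * e h))) :=
    tendsto_finsetSum _ fun k _ => cf_tendsto hd he (al_X hδ (hr k) (fun t => t ^ 2))
  have t2 : Tendsto (fun D => (∑ g ∈ Cf e D, Xd δ F g ^ 2 * e g) / (Om D).card) dom
      (𝓝 (MR (fun h => Xd δ F h ^ 2 * e h))) := cf_tendsto hd he (al_X hδ hF (fun t => t ^ 2))
  refine le_of_tendsto_of_tendsto' t1 t2 fun D => ?_
  rw [← Finset.sum_div]
  refine div_le_div_of_nonneg_right ?_ (Nat.cast_nonneg _)
  set S := win δ R with hS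
  have e1 : ∀ k, ∑ g ∈ Cf e D, Xd δ (r k) g ^ 2 * e g =
      ∑ x ∈ S, ∑ y ∈ S, mass δ (r k) x * mass δ (r k) y * ∑ g ∈ Cf e D, ((g x : ℝ) * (g y : ℝ)) * e g := by
    intro k
    rw [← quad_expand]
    refine Finset.sum_congr rfl fun g _ => ?_
    rw [GF.Lat.Xd_eq hδ hR.le (hrR k) (Finset.Subset.refl _)]
  have e2 : ∑ g ∈ Cf e D, Xd δ F g ^ 2 * e g =
      ∑ x ∈ S, ∑ y ∈ S, mass δ F x * mass δ F y * ∑ g ∈ Cf e D, ((g x : ℝ) * (g y : ℝ)) * e g := by
    rw [← quad_expand]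
    refine Finset.sum_congr rfl fun g _ => ?_
    rw [GF.Lat.Xd_eq hδ hR.le hFR (Finset.Subset.refl _)]
  simp only [e1]
  rw [e2]
  refine quad_le Finset.univ S (fun k => mass δ (r k)) (mass δ F) _
    (fun x y => pos_Cf he he0 hea D x y) fun x _ => ?_
  refine (Finset.sum_le_sum fun k _ => mass_abs_le δ x).trans ?_
  unfold RP4.mass
  rw [← integral_finsetSum _ fun k _ => (hr k).integrable.abs.integrableOn]
  refine setIntegral_mono ?_ hF.integrable.integrableOn fun z => h z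
  exact (integrable_finsetSum _ fun k _ => (hr k).integrable.abs).integrableOn

end DV
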