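import Pool.Agent.Helper83.DV.Cp
import Pool.Agent.Helper83.DV.Mo
import Pool.Agent.Helper33.DV.Ev3

/-!
# Project DV, block PL3: the shift identity for even pinned weights
-/

open MeasureTheory Filter Topology ComplexConjugate

namespace DV

open RP4 (V Om dom BdryPar Deloc mass)
open GF (Pl Cc ell lap Kc dir JJ)
open GF.Lat (Xd cc_box DirZ dr)

/-- the weighted floating measure of a complex observable -/
noncomputable def Ph (e : (V → ℤ) → ℝ) (F : (V → ℤ) → ℂ) : ℂ := M (fun h => F h * (e h : ℂ))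

lemma pn_mul {S : Finset V} {F : (V → ℤ) → ℂ} (hF : AL S F) {e : (V → ℤ) → ℝ} (he : Pn S (cx e)) :
    Pn S (fun h => F h * (e h : ℂ)) := by
  refine ⟨fun h h' hh => ?_, ?_⟩
  · have h1 := hF h h' hh
    have h2 := he.loc h h' hh
    simp only [cx] at h2
    simp only [h1, h2]
  · obtain ⟨N, hN⟩ := he.pin
    exact ⟨N, fun h hh => hN h (right_ne_zero_of_mul hh)⟩

lemma pn_mono {S T : Finset V} {A : (V → ℤ) → ℂ} (h : Pn S A) (hS : S ⊆ T) : Pn T A := by
  refine ⟨h.loc.mono hS, ?_⟩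
  obtain ⟨N, hN⟩ := h.pin
  refine ⟨N, fun g hg => ?_⟩
  obtain ⟨x, hx, hx2⟩ := hN g hg
  exact ⟨x, hS hx, hx2⟩

variable {S : Finset V} {e : (V → ℤ) → ℝ}

lemma Ph_add (hd : Deloc) (he : Pn S (cx e)) {F G : (V → ℤ) → ℂ} (hF : AL S F) (hG : AL S G) :
    Ph e (fun h => F h + G h) = Ph e F + Ph e G := by
  unfold Ph
  rw [← M_add hd (pn_mul hF he) (pn_mul hG he)]
  congr 1
  funext h
  ring

lemma Ph_smul (hd : Deloc) (he : Pn S (cx e)) {F : (V → ℤ) → ℂ} (hF : AL S F) (c : ℂ) :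
    Ph e (fun h => c * F h) = c * Ph e F := by
  unfold Ph
  rw [← M_smul hd (pn_mul hF he)]
  congr 1
  funext h
  ring

lemma Ph_cx (hd : Deloc) (he : Pn S (cx e)) {B : (V → ℤ) → ℝ} (hB : AL S (cx B)) :
    Ph e (cx B) = (MR (fun h => B h * e h) : ℂ) := by
  have h1 : Pn S (cx fun h => B h * e h) := by
    have := pn_mul hB he
    refine ⟨fun h h' hh => ?_, ?_⟩
    · have h2 := this.loc h h' hh
      simp only [cx, Complex.ofReal_mul] at h2 ⊢
      exact h2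
    · obtain ⟨N, hN⟩ := this.pin
      refine ⟨N, fun h hh => hN h ?_⟩
      simp only [cx, Complex.ofReal_mul] at hh ⊢
      exact hh
  rw [← M_cx hd h1]
  unfold Ph
  congr 1
  funext h
  simp only [cx, Complex.ofReal_mul]

lemma Ph_norm_le (hd : Deloc) (he : Pn S (cx e)) (he0 : ∀ h, 0 ≤ e h) {F : (V → ℤ) → ℂ} (hF : AL S F)
    {B : (V → ℤ) → ℝ} (hB : AL S (cx B)) (h : ∀ g, GH g → ‖F g‖ ≤ B g) :
    ‖Ph e F‖ ≤ MR (fun h => B h * e h) := by
  have h1 := norm_M_le hd (pn_mul hF he) (pn_mul hB he) fun g hg => by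
    rw [norm_mul, Complex.norm_real, Real.norm_eq_abs, abs_of_nonneg (he0 g)]
    simp only [cx]
    rw [← Complex.ofReal_mul, Complex.ofReal_re]
    exact mul_le_mul_of_nonneg_right (h g hg) (he0 g)
  have h2 : M (fun h => cx B h * (e h : ℂ)) = (MR (fun h => B h * e h) : ℂ) := Ph_cx hd he hB
  rw [h2, Complex.ofReal_re] at h1
  exact h1

lemma MRw_add (hd : Deloc) (he : Pn S (cx e)) {A B : (V → ℤ) → ℝ} (hA : AL S (cx A)) (hB : AL S (cx B)) :
    MR (fun h => (A h + B h) * e h) = MR (fun h => A h * e h) + MR (fun h => B h * e h) := by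
  have h1 := Ph_add hd he hA hB
  have e1 : (fun h => cx A h + cx B h) = cx (fun h => A h + B h) := by
    funext h
    simp only [cx, Complex.ofReal_add]
  rw [e1, Ph_cx hd he (al_add hA hB), Ph_cx hd he hA, Ph_cx hd he hB] at h1
  exact_mod_cast h1

lemma MRw_smul (hd : Deloc) (he : Pn S (cx e)) {A : (V → ℤ) → ℝ} (hA : AL S (cx A)) (c : ℝ) :
    MR (fun h => (c * A h) * e h) = c * MR (fun h => A h * e h) := by
  have h1 := Ph_smul hd he hA (c : ℂ)
  have e1 : (fun h => (c : ℂ) * cx A h) = cx (fun h => c * A h) := by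
    funext h
    simp only [cx, Complex.ofReal_mul]
  rw [e1, Ph_cx hd he (al_comp hA (fun t => c * t)), Ph_cx hd he hA] at h1
  exact_mod_cast h1

/-- the real part of the mean of a character -/
lemma Ph_chr_re (hd : Deloc) (he : Pn S (cx e)) {δ : ℝ} {f : Pl → ℝ}
    (hX : ∀ φ : ℝ → ℝ, AL S (cx fun h => φ (Xd δ f h))) :
    (Ph e (chr δ f)).re = MR (fun h => Real.cos (Xd δ f h) * e h) := by
  have e1 : chr δ f = fun h => cx (fun h => Real.cos (Xd δ f h)) h +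
      Complex.I * cx (fun h => Real.sin (Xd δ f h)) h := by
    funext h
    simp only [cx]
    unfold chr
    rw [Complex.exp_mul_I, Complex.ofReal_cos, Complex.ofReal_sin]
    ring
  rw [e1, Ph_add hd he (hX Real.cos) ((hX Real.sin).comp fun z => Complex.I * z),
    Ph_smul hd he (hX Real.sin), Ph_cx hd he (hX Real.cos), Ph_cx hd he (hX Real.sin)]
  simp

lemma chr_zero (δ : ℝ) (h : V → ℤ) : chr δ (fun _ => 0) h = 1 := by
  unfold chr GF.Lat.Xd RP4.mass
  simp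

lemma chr_sum {δ : ℝ} (hδ : 0 < δ) {ι : Type} (T : Finset ι) {f : ι → Pl → ℝ} (hf : ∀ i, Cc (f i)) (h : V → ℤ) :
    chr δ (fun z => ∑ i ∈ T, f i z) h = ∏ i ∈ T, chr δ (f i) h := by
  classical
  induction T using Finset.induction_on with
  | empty =>
    simp only [Finset.sum_empty, Finset.prod_empty]
    exact chr_zero δ h
  | insert a T ha ih =>
    rw [Finset.prod_insert ha, ← ih, ← chr_add hδ (hf a) (Cc.sum T f fun i _ => hf i)]
    refine congrFun (chr_congr fun z => ?_) h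
    rw [Finset.sum_insert ha]

/-- the pointwise bound of the error -/
lemma err_le {c x η t a b : ℝ} {Y P r : ℂ} (hY : ‖Y‖ ≤ 1 + c) (hc : 0 ≤ c) (hP : ‖P‖ = 1) (hη : 0 < η)
    (hr : ‖r - 1‖ ≤ |x|) (ha' : a ≤ 1) (hb : 0 ≤ b) (hb' : b ≤ 1) (h : (1 - a) + (1 - b) ≤ t) :
    ‖Y * P * r - Y * (P * ((a * b : ℝ) : ℂ))‖ ≤ (1 + c) * ((η + η⁻¹ * x ^ 2) + t) := by
  have e : Y * P * r - Y * (P * ((a * b : ℝ) : ℂ)) = Y * P * ((r - 1) + ((1 - a * b : ℝ) : ℂ)) := by
    push_cast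
    ring
  rw [e, norm_mul, norm_mul, hP, mul_one]
  refine mul_le_mul hY ?_ (norm_nonneg _) (by linarith)
  refine (norm_add_le _ _).trans (add_le_add (hr.trans ?_) ?_)
  · have h3 : 0 ≤ η⁻¹ * (|x| - η) ^ 2 := by positivity
    have h4 : η⁻¹ * (|x| - η) ^ 2 = η⁻¹ * x ^ 2 - 2 * |x| + η := by
      have : (|x| - η) ^ 2 = x ^ 2 - 2 * |x| * η + η ^ 2 := by
        rw [sub_sq, sq_abs]
      rw [this]
      field_simp
    have h5 := abs_nonneg x
    linarith
  · rw [Complex.norm_real, Real.norm_eq_abs]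
    have h6 : a * b ≤ 1 := mul_le_one₀ ha' hb hb'
    rw [abs_of_nonneg (by linarith)]
    have h7 : 0 ≤ (1 - a) * (1 - b) := mul_nonneg (by linarith) (by linarith)
    nlinarith

/-- **One step of the shift identity**, at a fixed mesh. -/
theorem shift_step (hd : Deloc) {s : Finset V} {e : (V → ℤ) → ℝ} (he' : Pn s (cx e)) (he0 : ∀ g, 0 ≤ e g)
    {δ : ℝ} (hδ : 0 < δ) {f u g r k₀ k₅ : Pl → ℝ} {fi : Fin 6 → Pl → ℝ} (hf : Cc f) (hu : Cc u) (hg : Cc g)
    (hr : Cc r) (hk₀ : Cc k₀) (hk₅ : Cc k₅) (hfi : ∀ i, Cc (fi i)) (i₀ : ∫ z, k₀ z = 1) (i₅ : ∫ z, k₅ z = 1)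
    (hdec : ∀ z, f z = g z + (∑ i, fi i z) + r z) {c η T : ℝ} (hc : 0 ≤ c) (hη : 0 < η) (hT : 0 < T) :
    |MR (fun h => Real.cos (Xd δ (fun z => f z + lap u z) h) * e h) - c * MR (fun h => Real.cos (Xd δ f h) * e h)| ≤
      ‖M (fun h => Yy c δ g u h * ((∏ i, chr δ (fi i) h) * ((pnd δ T k₀ h * pnd δ T k₅ h : ℝ) : ℂ)) * (e h : ℂ))‖ +
        (1 + c) * ((η * MR e + η⁻¹ * MR (fun h => Xd δ r h ^ 2 * e h)) +
          (T ^ 2)⁻¹ * (MR (fun h => Xd δ k₀ h ^ 2 * e h) + MR (fun h => Xd δ k₅ h ^ 2 * e h))) := by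
  classical
  have hfu : Cc (fun z => f z + lap u z) := hf.add hu.lap
  have c1 := cc_ab hg hu 1
  have c0 := cc_ab hg hu 0
  set S : Finset V := s ∪ ms δ (fun z => f z + lap u z) ∪ ms δ f ∪ ms δ (fun z => g z + 1 * lap u z) ∪
    ms δ (fun z => g z + 0 * lap u z) ∪ (Finset.univ.biUnion fun i => ms δ (fi i)) ∪ ms δ r ∪ ms δ k₀ ∪ ms δ k₅ with hS
  have s0 : s ⊆ S := by intro x hx; simp only [hS, Finset.mem_union]; tauto
  have s1 : ms δ (fun z => f z + lap u z) ⊆ S := by intro x hx; simp only [hS, Finset.mem_union]; tauto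
  have s2 : ms δ f ⊆ S := by intro x hx; simp only [hS, Finset.mem_union]; tauto
  have s3 : ms δ (fun z => g z + 1 * lap u z) ⊆ S := by intro x hx; simp only [hS, Finset.mem_union]; tauto
  have s4 : ms δ (fun z => g z + 0 * lap u z) ⊆ S := by intro x hx; simp only [hS, Finset.mem_union]; tauto
  have s5 : ∀ i, ms δ (fi i) ⊆ S := by
    intro i x hx
    have : x ∈ Finset.univ.biUnion fun i => ms δ (fi i) := Finset.mem_biUnion.2 ⟨i, Finset.mem_univ i, hx⟩
    simp only [hS, Finset.mem_union]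
    tauto
  have s6 : ms δ r ⊆ S := by intro x hx; simp only [hS, Finset.mem_union]; tauto
  have s7 : ms δ k₀ ⊆ S := by intro x hx; simp only [hS, Finset.mem_union]; tauto
  have s8 : ms δ k₅ ⊆ S := by intro x hx; simp only [hS, Finset.mem_union]; tauto
  have he : Pn S (cx e) := pn_mono he' s0
  have aX : ∀ {f : Pl → ℝ}, Cc f → ms δ f ⊆ S → ∀ φ : ℝ → ℝ, AL S (cx fun h => φ (Xd δ f h)) :=
    fun hf hs φ => (al_X hδ hf φ).mono hs
  have aC : ∀ {f : Pl → ℝ}, Cc f → ms δ f ⊆ S → AL S (chr δ f) := fun hf hs => (chr_al hδ hf).mono hs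
  -- the product of the characters and pins
  set W : (V → ℤ) → ℂ := fun h => Yy c δ g u h * ((∏ i, chr δ (fi i) h) * ((pnd δ T k₀ h * pnd δ T k₅ h : ℝ) : ℂ)) with hW
  have aW : AL S W := by
    intro h h' hh
    have e1 := aC c1 s3 h h' hh
    have e2 := aC c0 s4 h h' hh
    have e3 : ∀ i, chr δ (fi i) h = chr δ (fi i) h' := fun i => aC (hfi i) (s5 i) h h' hh
    have e4 := ((pnd_al hδ hk₀ T).mono s7) h h' hh
    have e5 := ((pnd_al hδ hk₅ T).mono s8) h h' hh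
    simp only [cx, Complex.ofReal_inj] at e4 e5
    simp only [hW, Yy, e1, e2, e3, e4, e5]
  set B : (V → ℤ) → ℝ := fun h => (1 + c) * ((η + η⁻¹ * Xd δ r h ^ 2) +
    (T ^ 2)⁻¹ * (Xd δ k₀ h ^ 2 + Xd δ k₅ h ^ 2)) with hB
  have aR : AL S (cx fun h => η + η⁻¹ * Xd δ r h ^ 2) := aX hr s6 (fun t => η + η⁻¹ * t ^ 2)
  have aR' : AL S (cx fun h => η⁻¹ * Xd δ r h ^ 2) := aX hr s6 (fun t => η⁻¹ * t ^ 2)
  have aR'' : AL S (cx fun h => Xd δ r h ^ 2) := aX hr s6 (fun t => t ^ 2)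
  have aη : AL S (cx fun _ : V → ℤ => η) := fun _ _ _ => rfl
  have a0 : AL S (cx fun h => Xd δ k₀ h ^ 2) := aX hk₀ s7 (fun t => t ^ 2)
  have a5 : AL S (cx fun h => Xd δ k₅ h ^ 2) := aX hk₅ s8 (fun t => t ^ 2)
  have aK : AL S (cx fun h => Xd δ k₀ h ^ 2 + Xd δ k₅ h ^ 2) := al_add a0 a5
  have aK' : AL S (cx fun h => (T ^ 2)⁻¹ * (Xd δ k₀ h ^ 2 + Xd δ k₅ h ^ 2)) := al_comp aK (fun t => (T ^ 2)⁻¹ * t)
  have aB1 : AL S (cx fun h => (η + η⁻¹ * Xd δ r h ^ 2) + (T ^ 2)⁻¹ * (Xd δ k₀ h ^ 2 + Xd δ k₅ h ^ 2)) := al_add aR aK'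
  have aB : AL S (cx B) := al_comp aB1 (fun t => (1 + c) * t)
  -- the error
  set A : (V → ℤ) → ℂ := fun h => (chr δ (fun z => f z + lap u z) h + (-(c : ℂ)) * chr δ f h) + (-1 : ℂ) * W h with hA
  have a1 : AL S (fun h => (-(c : ℂ)) * chr δ f h) := (aC hf s2).comp fun z => -(c : ℂ) * z
  have a2 : AL S (fun h => chr δ (fun z => f z + lap u z) h + (-(c : ℂ)) * chr δ f h) := (aC hfu s1).add a1
  have a3 : AL S (fun h => (-1 : ℂ) * W h) := aW.comp fun z => -1 * z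
  have aA : AL S A := a2.add a3
  have hpt : ∀ h, GH h → ‖A h‖ ≤ B h := by
    intro h hh
    set P : ℂ := ∏ i, chr δ (fi i) h with hP
    have nP : ‖P‖ = 1 := by
      rw [hP, norm_prod]
      exact Finset.prod_eq_one fun i _ => norm_chr _ _ _
    have cfs : Cc (fun z => ∑ i, fi i z) := Cc.sum Finset.univ fi fun i _ => hfi i
    have e1 : ∀ p : ℝ, chr δ (fun z => f z + p * lap u z) h = chr δ (fun z => g z + p * lap u z) h * P * chr δ r h := by
      intro p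
      rw [hP, ← chr_sum hδ Finset.univ hfi, ← chr_add hδ (cc_ab hg hu p) cfs, ← chr_add hδ ((cc_ab hg hu p).add cfs) hr]
      refine congrFun (chr_congr fun z => ?_) h
      rw [hdec z]
      ring
    have e2 : chr δ (fun z => f z + lap u z) h = chr δ (fun z => f z + 1 * lap u z) h :=
      congrFun (chr_congr fun z => by ring) h
    have e3 : chr δ f h = chr δ (fun z => f z + 0 * lap u z) h :=
      congrFun (chr_congr fun z => by ring) h
    have e4 : A h = Yy c δ g u h * P * chr δ r h - Yy c δ g u h * (P * ((pnd δ T k₀ h * pnd δ T k₅ h : ℝ) : ℂ)) := by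
      simp only [hA, hW]
      rw [e2, e3, e1, e1]
      unfold Yy
      ring
    rw [e4]
    have h1 := norm_Yy_le c δ g u h
    rw [abs_of_nonneg hc] at h1
    refine err_le h1 hc nP hη (norm_chr_sub_one δ r h) (pnd_le_one _ _ _ _)
      (pnd_nonneg _ _ _ _) (pnd_le_one _ _ _ _) ?_
    have g1 := one_sub_pnd_le hδ hk₀ i₀ hT hh
    have g2 := one_sub_pnd_le hδ hk₅ i₅ hT hh
    rw [div_eq_mul_inv, mul_comm] at g1 g2
    rw [mul_add]
    exact add_le_add g1 g2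
  have h1 := Ph_norm_le hd he he0 aA aB hpt
  have h2 : MR (fun h => B h * e h) = (1 + c) * ((η * MR e + η⁻¹ * MR (fun h => Xd δ r h ^ 2 * e h)) +
          (T ^ 2)⁻¹ * (MR (fun h => Xd δ k₀ h ^ 2 * e h) + MR (fun h => Xd δ k₅ h ^ 2 * e h))) := by
    simp only [hB]
    have hη1 : MR (fun h => η * e h) = η * MR e := by
      have := MRw_smul hd he (A := fun _ => 1) (fun _ _ _ => rfl) η
      simpa only [mul_one, one_mul] using this
    rw [MRw_smul hd he aB1, MRw_add hd he aR aK', MRw_smul hd he aK, MRw_add hd he a0 a5, MRw_add hd he aη aR',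
      MRw_smul hd he aR'', hη1]
  have h3 : Ph e A = Ph e (chr δ (fun z => f z + lap u z)) + (-(c : ℂ)) * Ph e (chr δ f) + (-1 : ℂ) * Ph e W := by
    simp only [hA]
    rw [Ph_add hd he a2 a3, Ph_add hd he (aC hfu s1) a1, Ph_smul hd he (aC hf s2), Ph_smul hd he aW]
  have h4 : MR (fun h => Real.cos (Xd δ (fun z => f z + lap u z) h) * e h) - c * MR (fun h => Real.cos (Xd δ f h) * e h) =
      (Ph e A + Ph e W).re := by
    rw [h3, ← Ph_chr_re hd he (aX hfu s1), ← Ph_chr_re hd he (aX hf s2)]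
    simp only [Complex.add_re, Complex.mul_re, Complex.neg_re, Complex.neg_im, Complex.ofReal_re, Complex.ofReal_im,
      Complex.one_re, Complex.one_im]
    ring
  rw [h4]
  refine (Complex.abs_re_le_norm _).trans ((norm_add_le _ _).trans ?_)
  rw [add_comm]
  refine add_le_add (le_of_eq ?_) (h1.trans h2.le)
  rfl

end DV
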